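import Pool.Agent.Lib.MP_af3a4a_an.P1.CHK.SWP.Pay
import Pool.Agent.Lib.MP_af3a4a_an.P1.CHK.DATA.N5t.Z0
import Pool.Agent.Lib.MP_af3a4a_an.P1.CHK.DATA.N5t.Z1
import Pool.Agent.Lib.MP_af3a4a_an.P1.CHK.DATA.F5t.W624a
import Pool.Agent.Lib.MP_af3a4a_an.P1.CHK.DATA.F5t.W672a
import Pool.Agent.Lib.MP_af3a4a_an.P1.CHK.DATA.F5t.W720a
import Pool.Agent.Lib.MP_af3a4a_an.P1.CHK.DATA.F5t.W768a
import Pool.Agent.Lib.MP_af3a4a_an.P1.CHK.DATA.F5t.W816a
import Pool.Agent.Lib.MP_af3a4a_an.P1.CHK.DATA.F5t.W864a

/-! chunks for N = 5 (generated) -/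

set_option autoImplicit false
set_option maxRecDepth 100000

namespace Pool.Agent.Lib.MP_af3a4a_an.P1.CHK.DATA.N5t

open BOX SWP

def t6 : Tree := (.sR 2688 (.leaf 0x3f08000024280041a1241da85803f1005) (.sR 2816 (.leaf 0x7c000282800519800000009c001008) (.sg 8 (.sR 2944 (.leaf 0x8800010280061b0000000080001008) (.sr 1664 (.sR 3200 (.sR 3072 (.leaf 0x940000c280071c8000000050001008) (.leaf 0x9c00014280081d800000005c001008)) (.sR 3328 (.leaf 0x9c00030280091d800000009c001008) (.sg 4 (.sR 3456 (.leaf 0xac000042800a1f800000009c001008) (.sr 1600 (.leaf 0xbc000002800b218000000050001008) (.leaf 0xbc0000028000218000000078001008))) (.sR 3456 (.leaf 0xac000042800c1f8000000098001008) (.sr 1600 (.leaf 0xbc000002800d218000000068001008) (.leaf 0xb80000028000210000000098001008)))))) (.sR 3200 (.sR 3072 (.leaf 0x940000c2800e1c8000000064001008) (.leaf 0x9c000142800f1d8000000094001008)) (.sR 3328 (.leaf 0x9c00008280101d80000000a0001008) (.sR 3456 (.leaf 0xb00000428011200000000080001008) (.sg 4 (.leaf 0xbc0000028012218000000068001008) (.sr 1728 (.leaf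 0xb0000002800120000000009c001008) (.leaf 0xbc0000028001218000000050001008)))))))) (.sr 1664 (.sR 3072 (.sR 2944 (.leaf 0x8800010280131b000000005c001008) (.leaf 0x940000c280141c8000000054001008)) (.sR 3200 (.leaf 0x9c00014280151d8000000080001008) (.sg 12 (.sR 3328 (.leaf 0xa800008280161f000000006c001008) (.sr 1600 (.sR 3456 (.leaf 0xb00001828017200000000070001008) (.leaf 0xbc0000028018218000000068001008)) (.sR 3456 (.leaf 0xb0000182801920000000009c001008) (.leaf 0xbc000002801a218000000064001008)))) (.sR 3328 (.leaf 0xa0000082801b1e0000000098001008) (.sr 1600 (.sR 3456 (.leaf 0xb0000182801c20000000008c001008) (.sR 3520 (.leaf 0xbc0001c2800221800000003c001008) (.leaf 0xc00002028002220000000058001008))) (.sR 3456 (.leaf 0xb0000042801d20000000006c001008) (.sR 3520 (.leaf 0xbc0001c2801e21800000005c001008) (.leaf 0xc0000202801f220000000054001008)))))))) (.sR 3072 (.sR 2944 (.leaf 0x8800010280201b000000009c001008) (.leaf 0x940000c280211c8000000098001008)) (.sR 3200 (.leaf 0x9c0002c280221d8000000078001008) (.sg 12 (.sR 3328 (.leaf 0xa000008280231e0000000094001008)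 (.sr 1728 (.sR 3456 (.leaf 0xa800004280031f000000009c001008) (.leaf 0xbc0000028024218000000050001008)) (.sR 3456 (.leaf 0xb0000042800320000000005c001008) (.leaf 0xbc000002802521800000005c001008)))) (.sR 3328 (.leaf 0xa800008280261f0000000074001008) (.sr 1728 (.sR 3456 (.leaf 0xb0000042802720000000005c001008) (.leaf 0xbc0000028028218000000068001008)) (.sR 3456 (.leaf 0xb00000428029200000000068001008) (.leaf 0xb0000002802a200000000098001008)))))))))))
theorem k6 : ChunkP 5 5 1536 1792 0 16 2560 3584 :=
  chkY_sound (Q := 40) (C := []) (Z := [z286, z294, z305, z313, z278, z279, z280, z281, z282, z283, z284, z285, z287, z288, z289, z290, z291, z292, z293, z295, z296, z297, z298, z299, z300, z301, z302, z303, z304, z306, z307, z308, z309, z310, z311, z312, z314, z315, z316, z317, z318, z319, z320])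
    (T := [f_w864_896_0_40_0r, f_w832_864_0_40_0r, f_w800_832_0_40_0r, f_w736_768_0_30_0r, f_w704_736_0_30_0r, f_w768_800_0_30_0r, f_w832_864_0_30_0r, f_w864_880_0_30_10r, f_w880_896_0_30_10r, f_w640_672_0_40_10r, f_w672_704_0_40_10r, f_w768_800_0_40_0r, f_w800_832_0_30_0r]) (t := t6)
    all_nil
    (all_cons z286P (all_cons z294P (all_cons z305P (all_cons z313P (all_cons z278P (all_cons z279P (all_cons z280P (all_cons z281P (all_cons z282P (all_cons z283P (all_cons z284P (all_cons z285P (all_cons z287P (all_cons z288P (all_cons z289P (all_cons z290P (all_cons z291P (all_cons z292P (all_cons z293P (all_cons z295P (all_cons z296P (all_cons z297P (all_cons z298P (all_cons z299P (all_cons z300P (all_cons z301P (all_cons z302P (all_cons z303P (all_cons z304P (all_cons z306P (all_cons z307P (all_cons z308P (all_cons z309P (all_cons z310P (all_cons z311P (all_cons z312P (all_cons z314P (all_cons z315P (all_cons z316P (all_cons z317P (all_cons z318P (all_cons z319P (all_cons z320P all_nil)))))))))))))))))))))))))))))))))))))))))))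
    (all_cons f_w864_896_0_40_0r_p (all_cons f_w832_864_0_40_0r_p (all_cons f_w800_832_0_40_0r_p (all_cons f_w736_768_0_30_0r_p (all_cons f_w704_736_0_30_0r_p (all_cons f_w768_800_0_30_0r_p (all_cons f_w832_864_0_30_0r_p (all_cons f_w864_880_0_30_10r_p (all_cons f_w880_896_0_30_10r_p (all_cons f_w640_672_0_40_10r_p (all_cons f_w672_704_0_40_10r_p (all_cons f_w768_800_0_40_0r_p (all_cons f_w800_832_0_30_0r_p all_nil)))))))))))))
    (by decide +kernel)
def t7 : Tree := (.sg 8 (.sR 2816 (.sR 2688 (.leaf 0x3907c0001428000199480529380391005) (.leaf 0x3b08400018280011a92403df6803b1005)) (.sR 2944 (.leaf 0x880001c280021b0000000088001008) (.sr 1920 (.sR 3200 (.sR 3072 (.leaf 0x9000028280031c000000009c001008) (.leaf 0x9c0000c280041d800000005c001008)) (.sR 3328 (.leaf 0xa800008280051f0000000050001008) (.sR 3456 (.leaf 0xb0000042800620000000005c001008) (.leaf 0xbc0000028007218000000078001008)))) (.sR 3200 (.sR 3072 (.leaf 0x9400010280081c8000000064001008) (.leaf 0x9c0000c280091d8000000078001008)) (.sR 3328 (.leaf 0xa4000082800a1e8000000094001008)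 (.sR 3456 (.leaf 0xb0000042800b20000000005c001008) (.leaf 0xbc000002800c218000000050001008))))))) (.sR 2688 (.leaf 0x6c000142800d1780000000a0001008) (.sr 1920 (.sR 2944 (.sR 2816 (.leaf 0x80000202800e1a000000008c001008) (.leaf 0x7c000242800f1980000000a4001008)) (.sR 3072 (.leaf 0x9400010280101c800000005c001008) (.sR 3200 (.leaf 0x9c0000c280111d8000000078001008) (.sg 12 (.sR 3328 (.leaf 0xa800008280121f0000000058001008) (.sR 3456 (.leaf 0xb00000428013200000000068001008) (.leaf 0xb8000002801421000000008c001008))) (.sR 3328 (.leaf 0xa800008280151f0000000080001008) (.sr 1856 (.sR 3456 (.leaf 0xb0000042801620000000005c001008) (.leaf 0xbc0000028017218000000050001008)) (.sR 3456 (.leaf 0xb00000428018200000000098001008) (.leaf 0xbc000002801921800000005c001008)))))))) (.sR 2944 (.sR 2816 (.leaf 0x80000182801a1a0000000094001008) (.leaf 0x840001c2801b1a80000000a4001008)) (.sR 3072 (.leaf 0x94000102801c1c8000000064001008) (.sR 3200 (.leaf 0x980000c2801d1d0000000098001008) (.sg 12 (.sR 3328 (.leaf 0xa4000082801e1e800000009c001008) (.sR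 3456 (.leaf 0xb0000042801f20000000005c001008) (.leaf 0xbc0000028020218000000064001008))) (.sR 3328 (.leaf 0xa800008280211f000000006c001008) (.sR 3456 (.leaf 0xb00000428022200000000080001008) (.sr 1984 (.leaf 0xbc0000028023218000000050001008) (.leaf 0xbc0000028024218000000050001008)))))))))))
theorem k7 : ChunkP 5 5 1792 2048 0 16 2560 3584 :=
  chkY_sound (Q := 40) (C := []) (Z := [z321, z322, z323, z324, z325, z326, z327, z328, z329, z330, z331, z332, z333, z334, z335, z336, z337, z338, z339, z340, z341, z342, z343, z344, z345, z346, z347, z348, z349, z350, z351, z352, z353, z354, z355, z356, z357])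
    (T := [f_w864_896_0_40_0r, f_w832_864_0_40_0r, f_w800_832_0_40_0r, f_w768_800_0_40_0r, f_w736_768_0_40_10r, f_w640_672_0_40_10r, f_w672_704_0_40_10r, f_w704_736_0_40_10r, f_w672_704_0_30_10r, f_w704_736_0_30_0r, f_w736_768_0_30_0r]) (t := t7)
    all_nil
    (all_cons z321P (all_cons z322P (all_cons z323P (all_cons z324P (all_cons z325P (all_cons z326P (all_cons z327P (all_cons z328P (all_cons z329P (all_cons z330P (all_cons z331P (all_cons z332P (all_cons z333P (all_cons z334P (all_cons z335P (all_cons z336P (all_cons z337P (all_cons z338P (all_cons z339P (all_cons z340P (all_cons z341P (all_cons z342P (all_cons z343P (all_cons z344P (all_cons z345P (all_cons z346P (all_cons z347P (all_cons z348P (all_cons z349P (all_cons z350P (all_cons z351P (all_cons z352P (all_cons z353P (all_cons z354P (all_cons z355P (all_cons z356P (all_cons z357P all_nil)))))))))))))))))))))))))))))))))))))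
    (all_cons f_w864_896_0_40_0r_p (all_cons f_w832_864_0_40_0r_p (all_cons f_w800_832_0_40_0r_p (all_cons f_w768_800_0_40_0r_p (all_cons f_w736_768_0_40_10r_p (all_cons f_w640_672_0_40_10r_p (all_cons f_w672_704_0_40_10r_p (all_cons f_w704_736_0_40_10r_p (all_cons f_w672_704_0_30_10r_p (all_cons f_w704_736_0_30_0r_p (all_cons f_w736_768_0_30_0r_p all_nil)))))))))))
    (by decide +kernel)
def t8 : Tree := (.sR 2688 (.leaf 0x3d07c00028280041994801253803d1005) (.sr 1664 (.sR 2944 (.sR 2816 (.leaf 0x7800010280001900000000a4001008) (.leaf 0x8800014280051b000000005c001008)) (.sR 3072 (.leaf 0x940002c280061c800000006c001008) (.sg 20 (.sR 3200 (.leaf 0x9c00018280071d800000005c001008) (.sr 1600 (.sR 3328 (.leaf 0xa800008280081f0000000050001008) (.sR 3456 (.leaf 0xa800038280091f0000000098001008) (.sR 3520 (.leaf 0xbc0000028001218000000040001008) (.leaf 0xc00000c28001220000000060001008)))) (.sR 3328 (.leaf 0xa0000082800a1e000000009c001008) (.sR 3456 (.leaf 0xb0000042800b20000000005c001008) (.sR 3520 (.leaf 0xbc000002800c218000000068001008)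 (.leaf 0xc00000c2800d22000000005c001008)))))) (.sR 3200 (.leaf 0x9c000182800e1d800000005c001008) (.sr 1600 (.sR 3328 (.leaf 0xa8000082800f1f0000000050001008) (.sR 3456 (.sR 3392 (.leaf 0xb00003428010200000000084001008) (.leaf 0xb80003c2801121000000004c001008)) (.sR 3520 (.leaf 0xbc0000028002218000000040001008) (.leaf 0xc00000c28002220000000060001008)))) (.sR 3328 (.leaf 0xa800008280121f0000000060001008) (.sR 3456 (.leaf 0xb00000428013200000000078001008) (.sR 3520 (.leaf 0xb80000028014210000000098001008) (.leaf 0xc00000c28015220000000088001008))))))))) (.sR 2944 (.sR 2816 (.leaf 0x8000010280001a000000009c001008) (.leaf 0x8800014280161b000000007c001008)) (.sR 3072 (.leaf 0x9400030280171c8000000088001008) (.sg 20 (.sR 3200 (.leaf 0x9c0001c280181d8000000064001008) (.sR 3328 (.leaf 0x9c00020280191d800000009c001008) (.sr 1728 (.sR 3456 (.leaf 0xb0000042801a20000000005c001008) (.sR 3520 (.leaf 0xbc0000028003218000000084001008) (.leaf 0xc00002428003220000000040001008))) (.sR 3456 (.leaf 0xb0000042801b20000000006c001008) (.leaf 0xbc000402801c218000000074001008)))))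 (.sR 3200 (.leaf 0x9c0001c2801d1d8000000084001008) (.sr 1728 (.sR 3328 (.leaf 0xa8000082801e1f0000000080001008) (.sR 3456 (.leaf 0xb0000042801f200000000060001008) (.sR 3520 (.leaf 0xb80000028020210000000098001008) (.leaf 0xc00000c28021220000000078001008)))) (.sR 3328 (.leaf 0xa800020280221f0000000068001008) (.sR 3456 (.leaf 0xb0000042802320000000005c001008) (.sR 3520 (.leaf 0xbc0000028024218000000088001008) (.leaf 0xc00002428025220000000094001008)))))))))))
theorem k8 : ChunkP 5 5 1536 1792 16 24 2560 3584 :=
  chkY_sound (Q := 40) (C := []) (Z := [z359, z365, z374, z384, z358, z360, z361, z362, z363, z364, z366, z367, z368, z369, z370, z371, z372, z373, z375, z376, z377, z378, z379, z380, z381, z382, z383, z385, z386, z387, z388, z389, z390, z391, z392, z393, z394, z395])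
    (T := [f_w864_880_0_30_10r, f_w832_864_0_40_0r, f_w800_832_0_30_0r, f_w880_896_0_30_10r, f_w672_704_0_30_10r, f_w704_736_0_30_0r, f_w768_800_0_30_0r, f_w768_800_0_40_0r, f_w800_832_0_40_0r, f_w880_896_0_40_10r, f_w640_672_0_40_10r, f_w736_768_0_30_0r, f_w736_768_0_40_10r, f_w832_848_0_40_10r, f_w832_864_0_30_0r, f_w848_864_0_40_10r, f_w864_896_0_40_0r]) (t := t8)
    all_nil
    (all_cons z359P (all_cons z365P (all_cons z374P (all_cons z384P (all_cons z358P (all_cons z360P (all_cons z361P (all_cons z362P (all_cons z363P (all_cons z364P (all_cons z366P (all_cons z367P (all_cons z368P (all_cons z369P (all_cons z370P (all_cons z371P (all_cons z372P (all_cons z373P (all_cons z375P (all_cons z376P (all_cons z377P (all_cons z378P (all_cons z379P (all_cons z380P (all_cons z381P (all_cons z382P (all_cons z383P (all_cons z385P (all_cons z386P (all_cons z387P (all_cons z388P (all_cons z389P (all_cons z390P (all_cons z391P (all_cons z392P (all_cons z393P (all_cons z394P (all_cons z395P all_nil))))))))))))))))))))))))))))))))))))))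
    (all_cons f_w864_880_0_30_10r_p (all_cons f_w832_864_0_40_0r_p (all_cons f_w800_832_0_30_0r_p (all_cons f_w880_896_0_30_10r_p (all_cons f_w672_704_0_30_10r_p (all_cons f_w704_736_0_30_0r_p (all_cons f_w768_800_0_30_0r_p (all_cons f_w768_800_0_40_0r_p (all_cons f_w800_832_0_40_0r_p (all_cons f_w880_896_0_40_10r_p (all_cons f_w640_672_0_40_10r_p (all_cons f_w736_768_0_30_0r_p (all_cons f_w736_768_0_40_10r_p (all_cons f_w832_848_0_40_10r_p (all_cons f_w832_864_0_30_0r_p (all_cons f_w848_864_0_40_10r_p (all_cons f_w864_896_0_40_0r_p all_nil)))))))))))))))))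
    (by decide +kernel)
def t9 : Tree := (.sR 2688 (.leaf 0x3b07c00028280051994802eed803b1005) (.sr 1664 (.sR 2944 (.sR 2816 (.leaf 0x7c0002c280061980000000a0001008) (.leaf 0x8800020280071b000000005c001008)) (.sR 3072 (.leaf 0x940000c280081c8000000074001008) (.sg 28 (.sR 3200 (.leaf 0x9c00010280091d800000005c001008) (.sR 3328 (.leaf 0xa0000082800a1e000000009c001008) (.sr 1600 (.sR 3456 (.leaf 0xb0000242800b200000000098001008) (.sR 3520 (.leaf 0xbc000002800021800000003c001008) (.leaf 0xc00000428000220000000058001008))) (.sR 3456 (.sR 3392 (.leaf 0xb0000142800120000000004c001008) (.leaf 0xb80001c28001210000000098001008)) (.sR 3520 (.leaf 0xbc000002800c218000000088001008) (.leaf 0xc0000042800d220000000074001008)))))) (.sR 3200 (.leaf 0x9c000102800e1d800000005c001008) (.sR 3328 (.leaf 0xa8000082800f1f000000007c001008) (.sr 1600 (.sR 3456 (.leaf 0xb00002428010200000000070001008) (.sR 3520 (.leaf 0xbc0000028002218000000034001008) (.leaf 0xc0000042800222000000004c001008))) (.sR 3456 (.sR 3392 (.leaf 0xb00001428011200000000058001008)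 (.leaf 0xb80001c28012210000000060001008)) (.sR 3520 (.leaf 0xbc0000028013218000000068001008) (.leaf 0xc0000042801422000000005c001008))))))))) (.sR 2816 (.leaf 0x7400030280151880000000a4001008) (.sR 2944 (.leaf 0x8800020280161b0000000094001008) (.sg 28 (.sR 3072 (.leaf 0x940000c280171c8000000068001008) (.sR 3200 (.leaf 0x9c00034280181d800000006c001008) (.sr 1728 (.sR 3328 (.leaf 0xa800008280191f000000007c001008) (.sR 3456 (.leaf 0xb0000182801a200000000084001008) (.sR 3520 (.leaf 0xb8000002801b210000000098001008) (.leaf 0xc0000042801c22000000006c001008)))) (.sR 3328 (.leaf 0xa8000382801d1f0000000090001008) (.sR 3456 (.leaf 0xb0000182801e20000000006c001008) (.sR 3520 (.leaf 0xbc000002801f218000000088001008) (.leaf 0xb80000428020210000000094001008))))))) (.sR 3072 (.leaf 0x940000c280211c800000005c001008) (.sR 3200 (.leaf 0x9c00010280221d8000000090001008) (.sr 1728 (.sR 3328 (.leaf 0xa800008280231f0000000050001008) (.sR 3456 (.sR 3392 (.leaf 0xb0000142800320000000003c001008) (.leaf 0xb80001c2800321000000004c001008)) (.sR 3520 (.leaf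 0xbc0000028004218000000048001008) (.leaf 0xc00000428004220000000078001008)))) (.sR 3328 (.leaf 0xa400008280241e8000000094001008) (.sR 3456 (.leaf 0xb0000182802520000000008c001008) (.sR 3520 (.leaf 0xbc000002802621800000006c001008) (.leaf 0xc0000042802722000000006c001008))))))))))))
theorem k9 : ChunkP 5 5 1536 1792 24 32 2560 3584 :=
  chkY_sound (Q := 40) (C := []) (Z := [z403, z404, z410, z430, z431, z396, z397, z398, z399, z400, z401, z402, z405, z406, z407, z408, z409, z411, z412, z413, z414, z415, z416, z417, z418, z419, z420, z421, z422, z423, z424, z425, z426, z427, z428, z429, z432, z433, z434, z435])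
    (T := [f_w864_880_0_30_10r, f_w880_896_0_30_10r, f_w800_832_0_30_0r, f_w736_768_0_30_0r, f_w768_800_0_30_0r, f_w832_848_0_40_10r, f_w832_864_0_40_0r, f_w848_864_0_40_10r, f_w704_736_0_30_0r, f_w832_864_0_30_0r, f_w640_672_0_40_10r, f_w672_704_0_10_0r, f_w672_704_0_30_10r, f_w768_800_0_40_0r, f_w800_832_0_40_0r]) (t := t9)
    all_nil
    (all_cons z403P (all_cons z404P (all_cons z410P (all_cons z430P (all_cons z431P (all_cons z396P (all_cons z397P (all_cons z398P (all_cons z399P (all_cons z400P (all_cons z401P (all_cons z402P (all_cons z405P (all_cons z406P (all_cons z407P (all_cons z408P (all_cons z409P (all_cons z411P (all_cons z412P (all_cons z413P (all_cons z414P (all_cons z415P (all_cons z416P (all_cons z417P (all_cons z418P (all_cons z419P (all_cons z420P (all_cons z421P (all_cons z422P (all_cons z423P (all_cons z424P (all_cons z425P (all_cons z426P (all_cons z427P (all_cons z428P (all_cons z429P (all_cons z432P (all_cons z433P (all_cons z434P (all_cons z435P all_nil))))))))))))))))))))))))))))))))))))))))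
    (all_cons f_w864_880_0_30_10r_p (all_cons f_w880_896_0_30_10r_p (all_cons f_w800_832_0_30_0r_p (all_cons f_w736_768_0_30_0r_p (all_cons f_w768_800_0_30_0r_p (all_cons f_w832_848_0_40_10r_p (all_cons f_w832_864_0_40_0r_p (all_cons f_w848_864_0_40_10r_p (all_cons f_w704_736_0_30_0r_p (all_cons f_w832_864_0_30_0r_p (all_cons f_w640_672_0_40_10r_p (all_cons f_w672_704_0_10_0r_p (all_cons f_w672_704_0_30_10r_p (all_cons f_w768_800_0_40_0r_p (all_cons f_w800_832_0_40_0r_p all_nil)))))))))))))))
    (by decide +kernel)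
def t10 : Tree := (.sr 1920 (.sR 2816 (.sR 2688 (.leaf 0x3908400014280001a8f088ca980391005) (.leaf 0x7c0001c280011980000000a4001008)) (.sR 2944 (.leaf 0x8800018280021b0000000090001008) (.sg 20 (.sR 3200 (.sR 3072 (.leaf 0x900000c280031c000000009c001008) (.leaf 0x9c00010280041d8000000068001008)) (.sR 3328 (.leaf 0xa800008280051f0000000098001008) (.sr 1856 (.sR 3456 (.leaf 0xb0000002800620000000005c001008) (.leaf 0xbc0000428007218000000058001008)) (.sR 3456 (.leaf 0xb00000028008200000000078001008) (.leaf 0xbc0000428009218000000050001008))))) (.sR 3072 (.leaf 0x940000c2800a1c8000000064001008) (.sR 3200 (.leaf 0x9c000102800b1d8000000088001008) (.sr 1856 (.sR 3328 (.leaf 0xa8000082800c1f0000000050001008) (.sR 3456 (.leaf 0xb0000002800d200000000068001008) (.leaf 0xbc000042800e218000000098001008))) (.sR 3328 (.leaf 0xa8000082800f1f0000000068001008) (.sR 3456 (.leaf 0xb0000002801020000000005c001008) (.leaf 0xbc0000428011218000000068001008))))))))) (.sR 2816 (.sR 2688 (.leaf 0x3e07800014280121910800f8e803e1005) (.leaf 0x8000020280131a000000009c001008))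 (.sR 2944 (.leaf 0x7c00018280141980000000a4001008) (.sg 20 (.sR 3200 (.sR 3072 (.leaf 0x940000c280151c8000000058001008) (.leaf 0x9c00010280161d8000000088001008)) (.sR 3328 (.leaf 0x9c00008280171d800000009c001008) (.sr 1984 (.sR 3456 (.leaf 0xb0000002801820000000005c001008) (.leaf 0xbc0000428019218000000050001008)) (.sR 3456 (.leaf 0xb0000002801a200000000068001008) (.leaf 0xb8000042801b210000000094001008))))) (.sR 3072 (.leaf 0x940000c2801c1c800000006c001008) (.sR 3200 (.leaf 0x9c000102801d1d8000000098001008) (.sr 1984 (.sR 3328 (.leaf 0xa8000082801e1f0000000050001008) (.sR 3456 (.leaf 0xb0000002801f20000000005c001008) (.leaf 0xbc000042802021800000005c001008))) (.sR 3328 (.leaf 0xa800008280211f0000000094001008) (.sR 3456 (.leaf 0xb0000002802220000000005c001008) (.leaf 0xbc0000428023218000000064001008))))))))))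
theorem k10 : ChunkP 5 5 1792 2048 16 24 2560 3584 :=
  chkY_sound (Q := 40) (C := []) (Z := [z436, z437, z438, z439, z440, z441, z442, z443, z444, z445, z446, z447, z448, z449, z450, z451, z452, z453, z454, z455, z456, z457, z458, z459, z460, z461, z462, z463, z464, z465, z466, z467, z468, z469, z470, z471])
    (T := [f_w832_864_0_40_0r, f_w864_896_0_40_0r, f_w800_832_0_40_0r, f_w736_768_0_40_10r, f_w768_800_0_40_0r, f_w640_672_0_40_10r, f_w704_736_0_40_10r, f_w672_704_0_30_10r, f_w672_704_0_40_10r]) (t := t10)
    all_nil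
    (all_cons z436P (all_cons z437P (all_cons z438P (all_cons z439P (all_cons z440P (all_cons z441P (all_cons z442P (all_cons z443P (all_cons z444P (all_cons z445P (all_cons z446P (all_cons z447P (all_cons z448P (all_cons z449P (all_cons z450P (all_cons z451P (all_cons z452P (all_cons z453P (all_cons z454P (all_cons z455P (all_cons z456P (all_cons z457P (all_cons z458P (all_cons z459P (all_cons z460P (all_cons z461P (all_cons z462P (all_cons z463P (all_cons z464P (all_cons z465P (all_cons z466P (all_cons z467P (all_cons z468P (all_cons z469P (all_cons z470P (all_cons z471P all_nil))))))))))))))))))))))))))))))))))))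
    (all_cons f_w832_864_0_40_0r_p (all_cons f_w864_896_0_40_0r_p (all_cons f_w800_832_0_40_0r_p (all_cons f_w736_768_0_40_10r_p (all_cons f_w768_800_0_40_0r_p (all_cons f_w640_672_0_40_10r_p (all_cons f_w704_736_0_40_10r_p (all_cons f_w672_704_0_30_10r_p (all_cons f_w672_704_0_40_10r_p all_nil)))))))))
    (by decide +kernel)
def t11 : Tree := (.sr 1920 (.sR 2688 (.leaf 0x3a0800001c280031a1242bc15803a1005) (.sR 2816 (.leaf 0x3d08000020280041a0f003274803d1005) (.sg 28 (.sR 2944 (.leaf 0x8800024280051b0000000078001008) (.sR 3072 (.leaf 0x9400010280061c8000000078001008) (.sr 1856 (.sR 3328 (.sR 3200 (.leaf 0x9c0002c280071d8000000094001008) (.leaf 0xa800000280081f0000000050001008)) (.sR 3456 (.leaf 0xb0000042800920000000005c001008) (.sR 3520 (.leaf 0xbc0001428000218000000038001008) (.leaf 0xc00000c28000220000000048001008)))) (.sR 3328 (.sR 3200 (.leaf 0x9c000082800a1d8000000064001008) (.leaf 0xa8000002800b1f0000000088001008)) (.sR 3456 (.leaf 0xb0000042800c200000000080001008) (.sR 3520 (.leaf 0xbc000142800121800000005c001008)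 (.leaf 0xc00000c2800122000000007c001008))))))) (.sR 2944 (.leaf 0x88000242800d1b000000006c001008) (.sR 3072 (.leaf 0x94000102800e1c8000000060001008) (.sr 1856 (.sR 3328 (.sR 3200 (.leaf 0x9c0002c2800f1d800000005c001008) (.leaf 0xa800000280101f0000000058001008)) (.sR 3456 (.leaf 0xb00000428011200000000070001008) (.sR 3520 (.leaf 0xb80003428012210000000098001008) (.leaf 0xc00000c28013220000000060001008)))) (.sR 3328 (.sR 3200 (.leaf 0x9c00008280141d8000000074001008) (.leaf 0xa800000280151f0000000054001008)) (.sR 3456 (.leaf 0xb00000428016200000000064001008) (.sR 3520 (.leaf 0xbc0001428017218000000080001008) (.leaf 0xc00000c2801822000000004c001008)))))))))) (.sR 2688 (.leaf 0x680001c280191700000000a8001008) (.sg 28 (.sR 2944 (.sR 2816 (.leaf 0x38084000202801a1a9240985780381005) (.leaf 0x88000282801b1b000000006c001008)) (.sR 3072 (.leaf 0x94000102801c1c8000000088001008) (.sr 1984 (.sR 3328 (.sR 3200 (.leaf 0x9c000082801d1d800000005c001008) (.leaf 0xa8000002801e1f0000000050001008)) (.sR 3456 (.leaf 0xb0000042801f200000000070001008)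 (.leaf 0xbc0001828020218000000090001008))) (.sR 3328 (.sR 3200 (.leaf 0x9c00008280211d8000000074001008) (.leaf 0xa800000280221f0000000064001008)) (.sR 3456 (.leaf 0xb00000428023200000000068001008) (.leaf 0xbc0001828024218000000074001008)))))) (.sR 2944 (.sR 2816 (.leaf 0x8000030280251a000000009c001008) (.leaf 0x8800028280261b000000007c001008)) (.sR 3072 (.leaf 0x8c00010280271b800000009c001008) (.sr 1984 (.sR 3328 (.sR 3200 (.leaf 0x9c00008280281d800000005c001008) (.leaf 0xa800000280291f0000000054001008)) (.sR 3456 (.leaf 0xa8000042802a1f0000000098001008) (.sR 3520 (.leaf 0xbc0001428002218000000034001008) (.leaf 0xc00000c28002220000000040001008)))) (.sR 3328 (.sR 3200 (.leaf 0x9c000082802b1d8000000090001008) (.leaf 0xa8000002802c1f0000000058001008)) (.sR 3456 (.leaf 0xb0000042802d200000000094001008) (.leaf 0xb0000182802e20000000009c001008)))))))))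
theorem k11 : ChunkP 5 5 1792 2048 24 32 2560 3584 :=
  chkY_sound (Q := 40) (C := []) (Z := [z479, z483, z514, z472, z473, z474, z475, z476, z477, z478, z480, z481, z482, z484, z485, z486, z487, z488, z489, z490, z491, z492, z493, z494, z495, z496, z497, z498, z499, z500, z501, z502, z503, z504, z505, z506, z507, z508, z509, z510, z511, z512, z513, z515, z516, z517, z518])
    (T := [f_w800_832_0_40_0r, f_w832_864_0_40_0r, f_w768_800_0_40_0r, f_w880_896_0_40_10r, f_w736_768_0_40_10r, f_w864_880_0_40_20r, f_w864_896_0_40_0r, f_w640_672_0_40_10r, f_w672_704_0_40_10r, f_w704_736_0_30_0r, f_w704_736_0_40_10r, f_w768_800_0_30_0r, f_w672_704_0_30_10r, f_w864_880_0_30_10r]) (t := t11)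
    all_nil
    (all_cons z479P (all_cons z483P (all_cons z514P (all_cons z472P (all_cons z473P (all_cons z474P (all_cons z475P (all_cons z476P (all_cons z477P (all_cons z478P (all_cons z480P (all_cons z481P (all_cons z482P (all_cons z484P (all_cons z485P (all_cons z486P (all_cons z487P (all_cons z488P (all_cons z489P (all_cons z490P (all_cons z491P (all_cons z492P (all_cons z493P (all_cons z494P (all_cons z495P (all_cons z496P (all_cons z497P (all_cons z498P (all_cons z499P (all_cons z500P (all_cons z501P (all_cons z502P (all_cons z503P (all_cons z504P (all_cons z505P (all_cons z506P (all_cons z507P (all_cons z508P (all_cons z509P (all_cons z510P (all_cons z511P (all_cons z512P (all_cons z513P (all_cons z515P (all_cons z516P (all_cons z517P (all_cons z518P all_nil)))))))))))))))))))))))))))))))))))))))))))))))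
    (all_cons f_w800_832_0_40_0r_p (all_cons f_w832_864_0_40_0r_p (all_cons f_w768_800_0_40_0r_p (all_cons f_w880_896_0_40_10r_p (all_cons f_w736_768_0_40_10r_p (all_cons f_w864_880_0_40_20r_p (all_cons f_w864_896_0_40_0r_p (all_cons f_w640_672_0_40_10r_p (all_cons f_w672_704_0_40_10r_p (all_cons f_w704_736_0_30_0r_p (all_cons f_w704_736_0_40_10r_p (all_cons f_w768_800_0_30_0r_p (all_cons f_w672_704_0_30_10r_p (all_cons f_w864_880_0_30_10r_p all_nil))))))))))))))
    (by decide +kernel)

end Pool.Agent.Lib.MP_af3a4a_an.P1.CHK.DATA.N5t
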