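import Pool.Agent.Lib.MP_af3a4a_an.P1.CHK.SWP.Pay
import Pool.Agent.Lib.MP_af3a4a_an.P1.CHK.DATA.N5t.C0
import Pool.Agent.Lib.MP_af3a4a_an.P1.CHK.DATA.N5t.Z1
import Pool.Agent.Lib.MP_af3a4a_an.P1.CHK.DATA.N5t.Z2
import Pool.Agent.Lib.MP_af3a4a_an.P1.CHK.DATA.F5t.W624a
import Pool.Agent.Lib.MP_af3a4a_an.P1.CHK.DATA.F5t.W672a
import Pool.Agent.Lib.MP_af3a4a_an.P1.CHK.DATA.F5t.W720a
import Pool.Agent.Lib.MP_af3a4a_an.P1.CHK.DATA.F5t.W768a
import Pool.Agent.Lib.MP_af3a4a_an.P1.CHK.DATA.F5t.W816a
import Pool.Agent.Lib.MP_af3a4a_an.P1.CHK.DATA.F5t.W864a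

/-! chunks for N = 5 (generated) -/

set_option autoImplicit false
set_option maxRecDepth 100000

namespace Pool.Agent.Lib.MP_af3a4a_an.P1.CHK.DATA.N5t

open BOX SWP

def t12 : Tree := (.sg 40 (.sR 2688 (.leaf 0x4008000028280031a1241cea580401005) (.sR 2816 (.leaf 0x3d08400020280041a924016af803d1005) (.sr 1664 (.sR 2944 (.leaf 0x880001c280051b000000005c001008) (.sR 3072 (.leaf 0x9400018280061c8000000050001008) (.sg 36 (.sR 3200 (.leaf 0x9c0000c280001d8000000078001008) (.sR 3328 (.leaf 0xa800004280071f000000005c001008) (.sr 1600 (.sR 3456 (.leaf 0xb0000002800820000000005c001008) (.sR 3520 (.leaf 0xbc0001028001218000000080001008) (.leaf 0xc0000142800922000000003c001008))) (.sR 3456 (.leaf 0xb0000002800a20000000006c001008) (.sR 3520 (.leaf 0xbc000102800121800000004c001008) (.leaf 0xc0000142800b220000000044001008)))))) (.sR 3328 (.sR 3200 (.leaf 0x940000c280001c80000000a0001008) (.leaf 0xa8000042800c1f0000000050001008)) (.sR 3456 (.leaf 0xb0000002800d200000000064001008) (.sr 1600 (.leaf 0xbc000082800e218000000054001008)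 (.leaf 0xbc000082800f218000000068001008))))))) (.sR 2944 (.leaf 0x840001c280101a80000000a0001008) (.sg 36 (.sR 3072 (.leaf 0x8800018280111b00000000a0001008) (.sR 3200 (.leaf 0x9c0000c280121d800000006c001008) (.sr 1728 (.sR 3328 (.leaf 0xa800004280131f0000000050001008) (.sR 3456 (.leaf 0xac00000280141f800000009c001008) (.sR 3520 (.leaf 0xbc0001028002218000000038001008) (.leaf 0xc00001428002220000000050001008)))) (.sR 3328 (.leaf 0xa800004280151f0000000078001008) (.sR 3456 (.leaf 0xa800034280161f000000009c001008) (.sR 3520 (.leaf 0xb80001028017210000000094001008) (.leaf 0xc00001428018220000000060001008))))))) (.sR 3200 (.sR 3072 (.leaf 0x9400018280191c8000000050001008) (.leaf 0x9c0000c2801a1d800000005c001008)) (.sR 3328 (.leaf 0xa8000042801b1f000000006c001008) (.sr 1728 (.sR 3456 (.leaf 0xb0000002801c20000000005c001008) (.leaf 0xbc000082801d218000000088001008)) (.sR 3456 (.leaf 0xb0000002801e200000000070001008) (.sR 3520 (.leaf 0xbc000102801f218000000050001008) (.leaf 0xc0000142802022000000003c001008))))))))))) (.sR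 2816 (.sR 2688 (.leaf 0x3a07c00024280211a1242bc15803a1005) (.leaf 0x3808400020280221a9240985780381005)) (.sR 2944 (.leaf 0x880001c280231b0000000070001008) (.sr 1664 (.sR 3200 (.sR 3072 (.leaf 0x940002c280241c8000000060001008) (.leaf 0x9c0000c280251d800000005c001008)) (.sR 3328 (.leaf 0xa800004280261f0000000090001008) (.sg 44 (.sR 3456 (.leaf 0xb00000028027200000000094001008) (.sr 1600 (.leaf 0xbc0003828028218000000080001008) (.leaf 0xbc000082802921800000008c001008))) (.sR 3456 (.leaf 0xb0000002802a20000000005c001008) (.leaf 0xbc000082802b21800000005c001008))))) (.sR 3072 (.leaf 0x94000182802c1c8000000088001008) (.sg 44 (.sR 3200 (.leaf 0x9c0000c2802d1d800000006c001008) (.sR 3328 (.leaf 0xa8000042802e1f0000000050001008) (.sr 1728 (.sR 3456 (.leaf 0xb0000002802f20000000005c001008) (.leaf 0xbc0000828030218000000050001008)) (.sR 3456 (.leaf 0xb0000002803120000000009c001008) (.leaf 0xbc0000828032218000000050001008))))) (.sR 3328 (.sR 3200 (.leaf 0x9c00030280331d800000005c001008) (.leaf 0xa800004280341f0000000050001008))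 (.sR 3456 (.leaf 0xb0000002803520000000005c001008) (.leaf 0xbc0000828036218000000078001008)))))))))
theorem k12 : ChunkP 5 5 1536 1792 32 48 2560 3584 :=
  chkY_sound (Q := 40) (C := []) (Z := [z523, z526, z539, z519, z520, z521, z522, z524, z525, z527, z528, z529, z530, z531, z532, z533, z534, z535, z536, z537, z538, z540, z541, z542, z543, z544, z545, z546, z547, z548, z549, z550, z551, z552, z553, z554, z555, z556, z557, z558, z559, z560, z561, z562, z563, z564, z565, z566, z567, z568, z569, z570, z571, z572, z573])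
    (T := [f_w832_864_0_30_0r, f_w800_832_0_30_0r, f_w864_896_0_30_0r, f_w768_800_0_30_0r, f_w864_880_0_30_10r, f_w880_896_0_30_10r, f_w736_768_0_30_0r, f_w704_736_0_30_0r, f_w672_704_0_30_10r, f_w640_672_0_10_0r, f_w640_672_0_40_10r, f_w736_768_0_10_0r, f_w768_800_0_10_0r, f_w832_864_0_40_0r, f_w864_896_0_20_0r]) (t := t12)
    all_nil
    (all_cons z523P (all_cons z526P (all_cons z539P (all_cons z519P (all_cons z520P (all_cons z521P (all_cons z522P (all_cons z524P (all_cons z525P (all_cons z527P (all_cons z528P (all_cons z529P (all_cons z530P (all_cons z531P (all_cons z532P (all_cons z533P (all_cons z534P (all_cons z535P (all_cons z536P (all_cons z537P (all_cons z538P (all_cons z540P (all_cons z541P (all_cons z542P (all_cons z543P (all_cons z544P (all_cons z545P (all_cons z546P (all_cons z547P (all_cons z548P (all_cons z549P (all_cons z550P (all_cons z551P (all_cons z552P (all_cons z553P (all_cons z554P (all_cons z555P (all_cons z556P (all_cons z557P (all_cons z558P (all_cons z559P (all_cons z560P (all_cons z561P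 (all_cons z562P (all_cons z563P (all_cons z564P (all_cons z565P (all_cons z566P (all_cons z567P (all_cons z568P (all_cons z569P (all_cons z570P (all_cons z571P (all_cons z572P (all_cons z573P all_nil)))))))))))))))))))))))))))))))))))))))))))))))))))))))
    (all_cons f_w832_864_0_30_0r_p (all_cons f_w800_832_0_30_0r_p (all_cons f_w864_896_0_30_0r_p (all_cons f_w768_800_0_30_0r_p (all_cons f_w864_880_0_30_10r_p (all_cons f_w880_896_0_30_10r_p (all_cons f_w736_768_0_30_0r_p (all_cons f_w704_736_0_30_0r_p (all_cons f_w672_704_0_30_10r_p (all_cons f_w640_672_0_10_0r_p (all_cons f_w640_672_0_40_10r_p (all_cons f_w736_768_0_10_0r_p (all_cons f_w768_800_0_10_0r_p (all_cons f_w832_864_0_40_0r_p (all_cons f_w864_896_0_20_0r_p all_nil)))))))))))))))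
    (by decide +kernel)
def t13 : Tree := (.sr 1920 (.sR 2688 (.leaf 0x3c08000024280031a12425707803c1005) (.sR 2816 (.leaf 0x7800018280041900000000a8001008) (.sg 36 (.sR 3072 (.sR 2944 (.leaf 0x8800008280051b0000000060001008) (.leaf 0x940001c280061c8000000094001008)) (.sR 3200 (.leaf 0x9c0000c280071d8000000084001008) (.sr 1856 (.sR 3328 (.leaf 0xa400020280081e800000009c001008) (.sR 3456 (.leaf 0xb00000028009200000000080001008) (.sR 3520 (.leaf 0xbc000102800a218000000064001008) (.leaf 0xc0000342800b220000000058001008)))) (.sR 3328 (.leaf 0xa8000042800c1f000000005c001008) (.sR 3456 (.leaf 0xb0000002800d20000000006c001008) (.sR 3520 (.leaf 0xbc000102800e218000000088001008) (.leaf 0xc0000142800f220000000060001008))))))) (.sR 3072 (.sR 2944 (.leaf 0x8800008280101b000000005c001008) (.leaf 0x940001c280111c8000000064001008)) (.sR 3200 (.leaf 0x9c0002c280121d800000008c001008) (.sr 1856 (.sR 3328 (.leaf 0xa800020280131f0000000050001008) (.sR 3456 (.leaf 0xa80003c280141f000000009c001008) (.leaf 0xb00004428015200000000098001008)))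 (.sR 3328 (.leaf 0xa800020280161f0000000080001008) (.sR 3456 (.leaf 0xb00000028017200000000064001008) (.sR 3520 (.leaf 0xbc000102801821800000006c001008) (.leaf 0xc0000342801922000000003c001008)))))))))) (.sR 2688 (.leaf 0x6c000242801a1780000000a8001008) (.sg 36 (.sR 2816 (.leaf 0x40084000182801b1a9240000280401005) (.sR 2944 (.leaf 0x80000082801c1a00000000a4001008) (.sr 1984 (.sR 3200 (.sR 3072 (.leaf 0x940001c2801d1c8000000060001008) (.leaf 0x9c0000c2801e1d800000005c001008)) (.sR 3328 (.leaf 0xa8000042801f1f0000000058001008) (.sR 3456 (.leaf 0xb00000028020200000000060001008) (.sR 3520 (.leaf 0xbc0003028000218000000038001008) (.leaf 0xc00001428000220000000048001008))))) (.sR 3200 (.sR 3072 (.leaf 0x9400028280211c8000000074001008) (.leaf 0x980000c280221d0000000098001008)) (.sR 3328 (.leaf 0xa800004280231f0000000058001008) (.sR 3456 (.sR 3392 (.leaf 0xb00003828001200000000064001008) (.leaf 0xb80004028001210000000098001008)) (.sR 3520 (.leaf 0xbc000302802421800000007c001008) (.leaf 0xc0000142802522000000003c001008))))))))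 (.sR 2944 (.sR 2816 (.leaf 0x3808400018280261a9240985780381005) (.leaf 0x8800008280271b0000000080001008)) (.sR 3072 (.leaf 0x9400028280281c800000006c001008) (.sr 1984 (.sR 3328 (.sR 3200 (.leaf 0x9c0002c280291d800000005c001008) (.leaf 0xa8000042802a1f0000000054001008)) (.sR 3456 (.leaf 0xb0000002802b20000000005c001008) (.sR 3520 (.leaf 0xbc0001028002218000000094001008) (.leaf 0xc00001428002220000000050001008)))) (.sR 3328 (.sR 3200 (.leaf 0x9c0000c2802c1d80000000a0001008) (.leaf 0xa8000042802d1f0000000054001008)) (.sR 3456 (.leaf 0xb0000002802e20000000005c001008) (.leaf 0xb8000482802f210000000094001008)))))))))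
theorem k13 : ChunkP 5 5 1792 2048 32 40 2560 3584 :=
  chkY_sound (Q := 40) (C := []) (Z := [z604, z608, z617, z574, z575, z576, z577, z578, z579, z580, z581, z582, z583, z584, z585, z586, z587, z588, z589, z590, z591, z592, z593, z594, z595, z596, z597, z598, z599, z600, z601, z602, z603, z605, z606, z607, z609, z610, z611, z612, z613, z614, z615, z616, z618, z619, z620, z621])
    (T := [f_w832_864_0_40_0r, f_w800_832_0_40_0r, f_w704_736_0_30_0r, f_w768_800_0_40_0r, f_w864_880_0_30_10r, f_w880_896_0_40_10r, f_w672_704_0_30_10r, f_w736_768_0_30_0r, f_w800_832_0_30_0r, f_w640_672_0_40_10r, f_w736_768_0_40_10r, f_w768_800_0_30_0r, f_w864_880_0_40_20r, f_w880_896_0_30_10r, f_w832_848_0_40_10r, f_w832_864_0_30_0r, f_w848_864_0_40_10r, f_w864_896_0_35_25r, f_w864_896_0_40_20r]) (t := t13)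
    all_nil
    (all_cons z604P (all_cons z608P (all_cons z617P (all_cons z574P (all_cons z575P (all_cons z576P (all_cons z577P (all_cons z578P (all_cons z579P (all_cons z580P (all_cons z581P (all_cons z582P (all_cons z583P (all_cons z584P (all_cons z585P (all_cons z586P (all_cons z587P (all_cons z588P (all_cons z589P (all_cons z590P (all_cons z591P (all_cons z592P (all_cons z593P (all_cons z594P (all_cons z595P (all_cons z596P (all_cons z597P (all_cons z598P (all_cons z599P (all_cons z600P (all_cons z601P (all_cons z602P (all_cons z603P (all_cons z605P (all_cons z606P (all_cons z607P (all_cons z609P (all_cons z610P (all_cons z611P (all_cons z612P (all_cons z613P (all_cons z614P (all_cons z615P (all_cons z616P (all_cons z618P (all_cons z619P (all_cons z620P (all_cons z621P all_nil))))))))))))))))))))))))))))))))))))))))))))))))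
    (all_cons f_w832_864_0_40_0r_p (all_cons f_w800_832_0_40_0r_p (all_cons f_w704_736_0_30_0r_p (all_cons f_w768_800_0_40_0r_p (all_cons f_w864_880_0_30_10r_p (all_cons f_w880_896_0_40_10r_p (all_cons f_w672_704_0_30_10r_p (all_cons f_w736_768_0_30_0r_p (all_cons f_w800_832_0_30_0r_p (all_cons f_w640_672_0_40_10r_p (all_cons f_w736_768_0_40_10r_p (all_cons f_w768_800_0_30_0r_p (all_cons f_w864_880_0_40_20r_p (all_cons f_w880_896_0_30_10r_p (all_cons f_w832_848_0_40_10r_p (all_cons f_w832_864_0_30_0r_p (all_cons f_w848_864_0_40_10r_p (all_cons f_w864_896_0_35_25r_p (all_cons f_w864_896_0_40_20r_p all_nil)))))))))))))))))))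
    (by decide +kernel)
def t14 : Tree := (.sr 1920 (.sR 2816 (.sR 2688 (.leaf 0x740001c28000188000000094001008) (.leaf 0x3808400018280011a9240985780381005)) (.sR 2944 (.leaf 0x880000c280021b000000005c001008) (.sg 44 (.sR 3200 (.sR 3072 (.leaf 0x9400010280031c8000000050001008) (.leaf 0x9c00004280041d800000005c001008)) (.sR 3328 (.leaf 0xa800008280051f0000000064001008) (.sr 1856 (.sR 3456 (.leaf 0xb0000002800620000000005c001008) (.leaf 0xbc0001428007218000000050001008)) (.sR 3456 (.leaf 0xb0000002800820000000005c001008) (.leaf 0xbc0001428009218000000054001008))))) (.sR 3200 (.sR 3072 (.leaf 0x94000282800a1c800000008c001008) (.leaf 0x9c000042800b1d800000005c001008)) (.sR 3328 (.leaf 0xa8000082800c1f0000000050001008) (.sR 3456 (.leaf 0xb0000002800d20000000008c001008) (.leaf 0xb0000142800e200000000098001008))))))) (.sR 2688 (.leaf 0x3d084000202800f1a8f083acc803d1005) (.sg 44 (.sR 2944 (.sR 2816 (.leaf 0x7400018280101880000000a8001008) (.leaf 0x880000c280111b000000005c001008)) (.sR 3072 (.leaf 0x9400010280121c8000000070001008)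 (.sR 3200 (.leaf 0x9c00004280131d8000000090001008) (.sr 1984 (.sR 3328 (.leaf 0xa800008280141f0000000058001008) (.sR 3456 (.leaf 0xb00000028015200000000064001008) (.leaf 0xb00003428016200000000098001008))) (.sR 3328 (.leaf 0xa800008280171f0000000068001008) (.sR 3456 (.leaf 0xb00000028018200000000078001008) (.leaf 3))))))) (.sR 3072 (.sR 2816 (.leaf 0x3d08000024280191a0f003274803d1005) (.sR 2944 (.leaf 0x880000c2801a1b000000005c001008) (.leaf 0x94000102801b1c8000000050001008))) (.sR 3328 (.sR 3200 (.leaf 0x9c000042801c1d800000005c001008) (.leaf 0xa00002c2801d1e0000000088001008)) (.sR 3456 (.leaf 0xb0000302801e200000000070001008) (.leaf 3)))))))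
theorem k14 : ChunkP 5 5 1792 2048 40 48 2560 3584 :=
  chkY_sound (Q := 40) (C := []) (Z := [z622, z623, z624, z625, z626, z627, z628, z629, z630, z631, z632, z633, z634, z635, z636, z637, z638, z639, z640, z641, z642, z643, z644, z645, z646, z647, z648, z649, z650, z651, z652])
    (T := [f_w832_864_0_30_0r, f_w768_800_0_30_0r, f_w800_832_0_30_0r, f_w704_736_0_30_0r, f_w736_768_0_30_0r, f_w864_896_0_30_0r, f_w672_704_0_30_10r, f_w640_672_0_10_0r, f_w640_672_0_40_10r, f_w672_704_0_10_0r, f_w736_768_0_10_0r, f_w800_832_0_30_30r, f_w832_864_0_35_25r, f_w864_896_0_35_25r]) (t := t14)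
    all_nil
    (all_cons z622P (all_cons z623P (all_cons z624P (all_cons z625P (all_cons z626P (all_cons z627P (all_cons z628P (all_cons z629P (all_cons z630P (all_cons z631P (all_cons z632P (all_cons z633P (all_cons z634P (all_cons z635P (all_cons z636P (all_cons z637P (all_cons z638P (all_cons z639P (all_cons z640P (all_cons z641P (all_cons z642P (all_cons z643P (all_cons z644P (all_cons z645P (all_cons z646P (all_cons z647P (all_cons z648P (all_cons z649P (all_cons z650P (all_cons z651P (all_cons z652P all_nil)))))))))))))))))))))))))))))))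
    (all_cons f_w832_864_0_30_0r_p (all_cons f_w768_800_0_30_0r_p (all_cons f_w800_832_0_30_0r_p (all_cons f_w704_736_0_30_0r_p (all_cons f_w736_768_0_30_0r_p (all_cons f_w864_896_0_30_0r_p (all_cons f_w672_704_0_30_10r_p (all_cons f_w640_672_0_10_0r_p (all_cons f_w640_672_0_40_10r_p (all_cons f_w672_704_0_10_0r_p (all_cons f_w736_768_0_10_0r_p (all_cons f_w800_832_0_30_30r_p (all_cons f_w832_864_0_35_25r_p (all_cons f_w864_896_0_35_25r_p all_nil))))))))))))))
    (by decide +kernel)
def t15 : Tree := (.sr 1792 (.sR 2816 (.sR 2688 (.leaf 0x3808000004280001a8f08a1fb80381005) (.leaf 0x3808000008280011a0f014b1380381005)) (.sR 2944 (.leaf 0x880000c280021b0000000064001008) (.sg 56 (.sR 3072 (.leaf 0x9400000280031c800000006c001008) (.sR 3200 (.leaf 0x9c00014280041d800000005c001008) (.sr 1664 (.sR 3328 (.leaf 0xa800018280051f0000000050001008) (.sR 3456 (.leaf 0xb00002028006200000000074001008) (.leaf 0xbc0002c28007218000000050001008))) (.sR 3328 (.leaf 0xa80001c280081f0000000050001008) (.sR 3456 (.leaf 0xb0000242800920000000005c001008)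 (.sg 52 (.leaf 0xbc0002c2800a218000000050001008) (.leaf 0xbc000282800b218000000050001008))))))) (.sR 3200 (.sR 3072 (.leaf 0x94000002800c1c8000000050001008) (.leaf 0x9c000102800d1d800000005c001008)) (.sR 3328 (.leaf 0xa8000182800e1f0000000050001008) (.sR 3456 (.leaf 0xb0000202800f20000000005c001008) (.leaf 0xbc0002828010218000000050001008))))))) (.sR 3456 (.sg 56 (.sR 2816 (.sR 2688 (.leaf 0x740003028011188000000094001008) (.leaf 0x3908400034280121a9240767180391005)) (.sR 2944 (.leaf 0x8000038280131a00000000a4001008) (.sr 1920 (.sR 3200 (.sR 3072 (.leaf 0x9400000280141c8000000060001008) (.leaf 0x9c00010280151d8000000088001008)) (.sR 3328 (.leaf 0xa80001c280161f0000000050001008) (.leaf 0xb0000242801720000000005c001008))) (.sR 3072 (.leaf 0x940003c280181c8000000050001008) (.sR 3200 (.leaf 0x9c00014280191d8000000078001008) (.leaf 3)))))) (.sR 2816 (.sR 2688 (.leaf 0x38080000042801a1a8f08a1fb80381005) (.leaf 0x38080000082801b1a0f014b1380381005)) (.sR 2944 (.leaf 0x880000c2801c1b000000005c001008) (.sR 3072 (.leaf 0x94000002801d1c8000000050001008)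 (.leaf 3))))) (.leaf 3)))
theorem k15 : ChunkP 5 5 1536 2048 48 64 2560 3584 :=
  chkY_sound (Q := 40) (C := []) (Z := [z653, z654, z655, z656, z657, z658, z659, z660, z661, z662, z663, z664, z665, z666, z667, z668, z669, z670, z671, z672, z673, z674, z675, z676, z677, z678, z679, z680, z681, z682])
    (T := [f_w736_768_0_10_0r, f_w640_672_0_10_0r, f_w672_704_0_10_0r, f_w704_736_0_10_0r, f_w768_800_0_10_0r, f_w768_800_0_30_0r, f_w800_832_0_10_0r, f_w800_832_0_30_0r, f_w832_864_0_10_0r, f_w832_864_0_30_0r, f_w864_896_0_10_0r, f_w864_896_0_20_0r, f_w640_672_0_40_10r, f_w672_704_0_30_10r, f_w704_736_0_30_0r, f_w736_768_0_30_0r]) (t := t15)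
    all_nil
    (all_cons z653P (all_cons z654P (all_cons z655P (all_cons z656P (all_cons z657P (all_cons z658P (all_cons z659P (all_cons z660P (all_cons z661P (all_cons z662P (all_cons z663P (all_cons z664P (all_cons z665P (all_cons z666P (all_cons z667P (all_cons z668P (all_cons z669P (all_cons z670P (all_cons z671P (all_cons z672P (all_cons z673P (all_cons z674P (all_cons z675P (all_cons z676P (all_cons z677P (all_cons z678P (all_cons z679P (all_cons z680P (all_cons z681P (all_cons z682P all_nil))))))))))))))))))))))))))))))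
    (all_cons f_w736_768_0_10_0r_p (all_cons f_w640_672_0_10_0r_p (all_cons f_w672_704_0_10_0r_p (all_cons f_w704_736_0_10_0r_p (all_cons f_w768_800_0_10_0r_p (all_cons f_w768_800_0_30_0r_p (all_cons f_w800_832_0_10_0r_p (all_cons f_w800_832_0_30_0r_p (all_cons f_w832_864_0_10_0r_p (all_cons f_w832_864_0_30_0r_p (all_cons f_w864_896_0_10_0r_p (all_cons f_w864_896_0_20_0r_p (all_cons f_w640_672_0_40_10r_p (all_cons f_w672_704_0_30_10r_p (all_cons f_w704_736_0_30_0r_p (all_cons f_w736_768_0_30_0r_p all_nil))))))))))))))))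
    (by decide +kernel)
def t16 : Tree := (.sg 96 (.sg 80 (.sR 2816 (.sR 2688 (.leaf 0x3808000000280001a8f08a1fb80381005) (.leaf 0x3808000004280011a0f014b1380381005)) (.sR 2944 (.leaf 0x8800008280021b000000005c001008) (.sR 3072 (.leaf 0x940000c280031c8000000050001008) (.leaf 3)))) (.leaf 3)) (.leaf 3))
theorem k16 : ChunkP 5 5 1536 2048 64 101 2560 3584 :=
  chkY_sound (Q := 40) (C := []) (Z := [z683, z684, z685, z686])
    (T := [f_w640_672_0_10_0r, f_w672_704_0_10_0r, f_w704_736_0_10_0r, f_w736_768_0_10_0r]) (t := t16)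
    all_nil
    (all_cons z683P (all_cons z684P (all_cons z685P (all_cons z686P all_nil))))
    (all_cons f_w640_672_0_10_0r_p (all_cons f_w672_704_0_10_0r_p (all_cons f_w704_736_0_10_0r_p (all_cons f_w736_768_0_10_0r_p all_nil))))
    (by decide +kernel)
def t17 : Tree := (.sg 8 (.sr 2304 (.sR 3072 (.sR 2816 (.sR 2688 (.leaf 0x700002028000180000000098001008) (.leaf 0x78000382800119000000009c001008)) (.sR 2944 (.leaf 0x800003c280021a00000000a0001008) (.leaf 0x940000c280031c8000000064001008))) (.sR 3328 (.sR 3200 (.leaf 0x9c00010280041d800000005c001008) (.leaf 0xa818014280051f0000000050001008)) (.sR 3456 (.leaf 0xb0000182800620000000005c001008) (.leaf 0xbc1801c28007218000000050001008)))) (.sR 3072 (.sR 2816 (.sR 2688 (.leaf 0x3a0780000028008191080868d803a1005) (.leaf 0x3808400004280091a9240985780381005)) (.sR 2944 (.leaf 0x88000082800a1b000000005c001008) (.leaf 0x940000c2800b1c8000000050001008))) (.sR 3328 (.sR 3200 (.leaf 0x9c000102800c1d800000005c001008) (.leaf 0xa8180142800d1f0000000050001008)) (.sR 3456 (.leaf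 0xb0000182800e20000000005c001008) (.leaf 0xbc1801c2800f218000000050001008))))) (.sr 2304 (.sg 12 (.sR 3072 (.sR 2816 (.sR 2688 (.leaf 0x6c00020280101780000000a8001008) (.leaf 0x3c08000004280111a0f0058b9803c1005)) (.sR 2944 (.leaf 0x8800008280121b000000007c001008) (.leaf 0x940000c280131c8000000080001008))) (.sR 3328 (.sR 3200 (.leaf 0x9c00010280141d8000000084001008) (.leaf 0xa818014280151f000000007c001008)) (.sR 3456 (.leaf 0xb00001828016200000000078001008) (.leaf 0xbc1801c2801721800000006c001008)))) (.sR 2816 (.sR 2688 (.leaf 0x7000000280181800000000a0001008) (.leaf 0x7800004280191900000000a4001008)) (.sR 2944 (.leaf 0x7c000082801a1980000000a4001008) (.sr 2176 (.sR 3200 (.sR 3072 (.leaf 0x94000242801b1c8000000054001008) (.leaf 0x9c000282801c1d8000000060001008)) (.sR 3328 (.leaf 0xa80002c2801d1f0000000068001008) (.sR 3456 (.leaf 0xb0000302801e200000000078001008) (.leaf 0xbc000342801f218000000088001008)))) (.sR 3200 (.sR 3072 (.leaf 0x9400024280201c800000005c001008) (.leaf 0x9c00028280211d8000000070001008)) (.sR 3328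 (.leaf 0xa80002c280221f0000000070001008) (.sR 3456 (.leaf 0xb00003028023200000000068001008) (.leaf 0xbc000342802421800000006c001008)))))))) (.sR 3072 (.sR 2816 (.sR 2688 (.sg 12 (.leaf 0x68000002802b1700000000a4001008) (.leaf 0x70000002802c180000000094001008)) (.leaf 0x7400004280251880000000a4001008)) (.sR 2944 (.leaf 0x8000008280261a000000009c001008) (.leaf 0x8c0000c280271b8000000098001008))) (.sR 3328 (.sR 3200 (.leaf 0x9c00010280281d8000000078001008) (.leaf 0xa818014280291f0000000060001008)) (.sR 3456 (.leaf 0xb0000182802a20000000005c001008) (.leaf 0xd40001c1c000218000000050001007))))))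
theorem k17 : ChunkP 5 5 2048 2560 0 16 2560 3584 :=
  chkY_sound (Q := 40) (C := [c0.c]) (Z := [z687, z688, z689, z690, z691, z692, z693, z694, z695, z696, z697, z698, z699, z700, z701, z702, z703, z704, z705, z706, z707, z708, z709, z710, z711, z712, z713, z714, z715, z716, z717, z718, z719, z720, z721, z722, z723, z724, z725, z726, z727, z728, z729, z730, z731])
    (T := [f_w640_672_0_50_10r, f_w672_704_0_50_10r, f_w704_736_0_50_10r, f_w736_768_0_50_0r, f_w768_800_0_50_0r, f_w800_832_0_50_0r, f_w832_864_0_50_0r, f_w864_896_0_50_0r, f_w640_672_0_40_10r, f_w736_768_0_40_10r, f_w768_800_0_40_0r, f_w800_832_0_40_0r, f_w832_864_0_40_0r, f_w864_896_0_40_0r, f_w672_704_0_40_10r, f_w704_736_0_40_10r]) (t := t17)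
    (all_cons p0 all_nil)
    (all_cons z687P (all_cons z688P (all_cons z689P (all_cons z690P (all_cons z691P (all_cons z692P (all_cons z693P (all_cons z694P (all_cons z695P (all_cons z696P (all_cons z697P (all_cons z698P (all_cons z699P (all_cons z700P (all_cons z701P (all_cons z702P (all_cons z703P (all_cons z704P (all_cons z705P (all_cons z706P (all_cons z707P (all_cons z708P (all_cons z709P (all_cons z710P (all_cons z711P (all_cons z712P (all_cons z713P (all_cons z714P (all_cons z715P (all_cons z716P (all_cons z717P (all_cons z718P (all_cons z719P (all_cons z720P (all_cons z721P (all_cons z722P (all_cons z723P (all_cons z724P (all_cons z725P (all_cons z726P (all_cons z727P (all_cons z728P (all_cons z729P (all_cons z730P (all_cons z731P all_nil)))))))))))))))))))))))))))))))))))))))))))))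
    (all_cons f_w640_672_0_50_10r_p (all_cons f_w672_704_0_50_10r_p (all_cons f_w704_736_0_50_10r_p (all_cons f_w736_768_0_50_0r_p (all_cons f_w768_800_0_50_0r_p (all_cons f_w800_832_0_50_0r_p (all_cons f_w832_864_0_50_0r_p (all_cons f_w864_896_0_50_0r_p (all_cons f_w640_672_0_40_10r_p (all_cons f_w736_768_0_40_10r_p (all_cons f_w768_800_0_40_0r_p (all_cons f_w800_832_0_40_0r_p (all_cons f_w832_864_0_40_0r_p (all_cons f_w864_896_0_40_0r_p (all_cons f_w672_704_0_40_10r_p (all_cons f_w704_736_0_40_10r_p all_nil))))))))))))))))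
    (by decide +kernel)

end Pool.Agent.Lib.MP_af3a4a_an.P1.CHK.DATA.N5t
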