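import Pool.Agent.Lib.MP_af3a4a_an.P1.CHK.SWP.Pay
import Pool.Agent.Lib.MP_af3a4a_an.P1.CHK.DATA.N5t.Z2
import Pool.Agent.Lib.MP_af3a4a_an.P1.CHK.DATA.N5t.Z3
import Pool.Agent.Lib.MP_af3a4a_an.P1.CHK.DATA.F5t.W624a
import Pool.Agent.Lib.MP_af3a4a_an.P1.CHK.DATA.F5t.W672a
import Pool.Agent.Lib.MP_af3a4a_an.P1.CHK.DATA.F5t.W720a
import Pool.Agent.Lib.MP_af3a4a_an.P1.CHK.DATA.F5t.W768a
import Pool.Agent.Lib.MP_af3a4a_an.P1.CHK.DATA.F5t.W816a
import Pool.Agent.Lib.MP_af3a4a_an.P1.CHK.DATA.F5t.W864a

/-! chunks for N = 5 (generated) -/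

set_option autoImplicit false
set_option maxRecDepth 100000

namespace Pool.Agent.Lib.MP_af3a4a_an.P1.CHK.DATA.N5t

open BOX SWP

def t18 : Tree := (.sr 2304 (.sg 20 (.sr 2176 (.sR 3072 (.sR 2816 (.sR 2688 (.leaf 0x3b07c00000280001994802eed803b1005) (.leaf 0x3908400004280011a9240767180391005)) (.sR 2944 (.leaf 0x8800008280021b000000006c001008) (.leaf 0x940001c280031c800000006c001008))) (.sR 3328 (.sR 3200 (.leaf 0x9c00024280041d800000008c001008) (.leaf 0xa000038280051e0000000094001008)) (.sR 3456 (.leaf 0xb0000102800620000000005c001008) (.leaf 0xbc1801828007218000000050001008)))) (.sR 3072 (.sR 2816 (.sR 2688 (.leaf 0x3c0740000028008188dc07c95803c1005) (.leaf 0x3c08000004280091a0f0058b9803c1005)) (.sR 2944 (.leaf 0x88000082800a1b0000000078001008) (.leaf 0x940001c2800b1c8000000078001008))) (.sR 3328 (.sR 3200 (.leaf 0x98000242800c1d0000000090001008) (.leaf 0xa81800c2800d1f0000000068001008)) (.sR 3456 (.leaf 0xb0000102800e200000000060001008) (.leaf 0xbc180182800f218000000050001008))))) (.sr 2176 (.sR 3072 (.sR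 2816 (.sR 2688 (.leaf 0x3b07c00000280101994802eed803b1005) (.leaf 0x3908400004280111a9240767180391005)) (.sR 2944 (.leaf 0x8800008280121b0000000070001008) (.leaf 0x940001c280131c80000000a0001008))) (.sR 3328 (.sR 3200 (.leaf 0x9c00014280141d8000000098001008) (.leaf 0xa41800c280151e8000000094001008)) (.sR 3456 (.sg 22 (.leaf 0xb00003c28017200000000098001008) (.leaf 0xb0000102801820000000005c001008)) (.leaf 0xb40004028016208000000088001008)))) (.sR 3072 (.sR 2816 (.sR 2688 (.leaf 0x7400000280191880000000a0001008) (.leaf 0x7c000042801a19800000009c001008)) (.sR 2944 (.leaf 0x84000082801b1a8000000098001008) (.leaf 0x8c0001c2801c1b800000009c001008))) (.sR 3328 (.sR 3200 (.leaf 0x9c000142801d1d800000005c001008) (.leaf 0xa81800c2801e1f0000000050001008)) (.sR 3456 (.leaf 0xb0000102801f20000000005c001008) (.leaf 0xbc1801828020218000000050001008)))))) (.sg 20 (.sR 3200 (.sR 2944 (.sr 2432 (.sR 2688 (.leaf 0x6c000002802617800000009c001008) (.sR 2816 (.leaf 0x78000042802719000000009c001008) (.leaf 0x8400008280281a8000000094001008)))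 (.sR 2688 (.leaf 0x6800000280291700000000ac001008) (.sR 2816 (.leaf 0x74000042802a1880000000a4001008) (.leaf 0x80000082802b1a0000000098001008)))) (.sR 3072 (.leaf 0x8800034280211b00000000a4001008) (.leaf 0x9c00014280221d80000000a0001008))) (.sR 3328 (.leaf 0xa81800c280231f0000000080001008) (.sR 3456 (.leaf 0xb00001028024200000000060001008) (.leaf 0xbc1801828025218000000050001008)))) (.sr 2432 (.sR 3072 (.sR 2816 (.sR 2688 (.leaf 0x68000002802c1700000000a4001008) (.leaf 0x74000042802d1880000000a8001008)) (.sR 2944 (.leaf 0x7c000082802e1980000000a4001008) (.leaf 0x94000202802f1c8000000050001008))) (.sR 3328 (.sR 3200 (.leaf 0x9c00014280301d800000005c001008) (.leaf 0xa81800c280311f0000000050001008)) (.sR 3456 (.leaf 0xb0000102803220000000005c001008) (.leaf 0xbc1801828033218000000050001008)))) (.sR 2944 (.sR 2688 (.leaf 0x6800028280341700000000ac001008) (.sR 2816 (.leaf 0x740002c280351880000000a0001008) (.leaf 0x8400030280361a800000009c001008))) (.sR 3200 (.sR 3072 (.leaf 0x9000020280371c0000000094001008) (.leaf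 0x9c00014280381d800000006c001008)) (.sR 3328 (.leaf 0xa81800c280391f0000000050001008) (.leaf 3)))))))
theorem k18 : ChunkP 5 5 2048 2560 16 24 2560 3584 :=
  chkY_sound (Q := 40) (C := []) (Z := [z732, z733, z734, z735, z736, z737, z738, z739, z740, z741, z742, z743, z744, z745, z746, z747, z748, z749, z750, z751, z752, z753, z754, z755, z756, z757, z758, z759, z760, z761, z762, z763, z764, z765, z766, z767, z768, z769, z770, z771, z772, z773, z774, z775, z776, z777, z778, z779, z780, z781, z782, z783, z784, z785, z786, z787, z788, z789])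
    (T := [f_w640_672_0_40_10r, f_w672_704_0_40_10r, f_w704_736_0_40_10r, f_w800_832_0_50_0r, f_w832_864_0_50_0r, f_w768_800_0_50_0r, f_w864_896_0_50_0r, f_w736_768_0_40_10r, f_w736_768_0_50_0r, f_w768_800_0_40_0r, f_w640_672_0_50_10r, f_w672_704_0_50_10r, f_w704_736_0_50_10r, f_w736_768_0_50_10r, f_w800_832_0_40_0r, f_w832_864_0_40_0r, f_w864_896_0_45_20r]) (t := t18)
    all_nil
    (all_cons z732P (all_cons z733P (all_cons z734P (all_cons z735P (all_cons z736P (all_cons z737P (all_cons z738P (all_cons z739P (all_cons z740P (all_cons z741P (all_cons z742P (all_cons z743P (all_cons z744P (all_cons z745P (all_cons z746P (all_cons z747P (all_cons z748P (all_cons z749P (all_cons z750P (all_cons z751P (all_cons z752P (all_cons z753P (all_cons z754P (all_cons z755P (all_cons z756P (all_cons z757P (all_cons z758P (all_cons z759P (all_cons z760P (all_cons z761P (all_cons z762P (all_cons z763P (all_cons z764P (all_cons z765P (all_cons z766P (all_cons z767P (all_cons z768P (all_cons z769P (all_cons z770P (all_cons z771P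 (all_cons z772P (all_cons z773P (all_cons z774P (all_cons z775P (all_cons z776P (all_cons z777P (all_cons z778P (all_cons z779P (all_cons z780P (all_cons z781P (all_cons z782P (all_cons z783P (all_cons z784P (all_cons z785P (all_cons z786P (all_cons z787P (all_cons z788P (all_cons z789P all_nil))))))))))))))))))))))))))))))))))))))))))))))))))))))))))
    (all_cons f_w640_672_0_40_10r_p (all_cons f_w672_704_0_40_10r_p (all_cons f_w704_736_0_40_10r_p (all_cons f_w800_832_0_50_0r_p (all_cons f_w832_864_0_50_0r_p (all_cons f_w768_800_0_50_0r_p (all_cons f_w864_896_0_50_0r_p (all_cons f_w736_768_0_40_10r_p (all_cons f_w736_768_0_50_0r_p (all_cons f_w768_800_0_40_0r_p (all_cons f_w640_672_0_50_10r_p (all_cons f_w672_704_0_50_10r_p (all_cons f_w704_736_0_50_10r_p (all_cons f_w736_768_0_50_10r_p (all_cons f_w800_832_0_40_0r_p (all_cons f_w832_864_0_40_0r_p (all_cons f_w864_896_0_45_20r_p all_nil)))))))))))))))))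
    (by decide +kernel)
def t19 : Tree := (.sr 2304 (.sg 28 (.sr 2176 (.sR 2816 (.sR 2688 (.leaf 0x4007c0002028003199480000280401005) (.leaf 0x400840002c280041a9240000280401005)) (.sR 2944 (.leaf 0x8800024280051b0000000088001008) (.sR 3072 (.leaf 0x9000010280061c0000000098001008) (.sg 26 (.sR 3328 (.sR 3200 (.leaf 0x9c00018280071d8000000080001008) (.leaf 0xa800034280081f0000000098001008)) (.sR 3456 (.leaf 0xa800050280091f0000000094001008) (.leaf 0xb0000582800a200000000098001008))) (.sR 3328 (.sR 3200 (.leaf 0x9c000182800b1d8000000090001008) (.leaf 0xa0000342800c1e0000000098001008)) (.sR 3456 (.leaf 0xa8000302800d1f000000008c001008) (.leaf 0xb4000382800e208000000080001008))))))) (.sR 3072 (.sR 2816 (.sR 2688 (.leaf 0x6c000202800f1780000000a8001008) (.leaf 0x4108000008280101a0f0005af80411005)) (.sR 2944 (.leaf 0x880000c280111b0000000080001008) (.leaf 0x9400014280121c800000008c001008))) (.sR 3328 (.sR 3200 (.leaf 0x9c00000280131d800000008c001008) (.leaf 0xa81801c280141f0000000084001008)) (.sR 3456 (.leaf 0xb00002828015200000000098001008)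 (.leaf 0xb41803c28016208000000098001008))))) (.sr 2176 (.sR 2816 (.sR 2688 (.leaf 0x3e07800020280171910800f8e803e1005) (.leaf 0x800002c280181a0000000090001008)) (.sR 2944 (.leaf 0x8400024280191a800000009c001008) (.sg 30 (.sR 3200 (.sR 3072 (.leaf 0x90000102801a1c000000009c001008) (.leaf 0x98000182801b1d0000000094001008)) (.sR 3328 (.leaf 0x9c000442801c1d800000009c001008) (.sR 3456 (.leaf 0xa8000302801d1f000000008c001008) (.leaf 0xb4000382801e208000000080001008)))) (.sR 3200 (.sR 3072 (.leaf 0x94000102801f1c8000000060001008) (.leaf 0x9c00018280201d8000000070001008)) (.sR 3328 (.sR 3264 (.leaf 0xa800040280001f0000000074001008) (.leaf 0xa40004c280001e800000007c001008)) (.sR 3456 (.leaf 0xa800030280211f000000008c001008) (.sR 3520 (.leaf 0xbc0005428001218000000050001008) (.leaf 0xc00005c2800122000000005c001008)))))))) (.sR 2688 (.leaf 0x7000020280221800000000a4001008) (.sR 2816 (.leaf 0x740002c280231880000000a8001008) (.sg 30 (.sR 3200 (.sR 2944 (.leaf 0x8800024280241b0000000084001008) (.sR 3072 (.leaf 0x9400010280251c8000000088001008)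 (.leaf 0x9400018280261c80000000a0001008))) (.sR 3328 (.leaf 0xa81801c280271f0000000054001008) (.sR 3456 (.leaf 0xb0000282802820000000005c001008) (.leaf 0xbc1803c28029218000000050001008)))) (.sR 3200 (.sR 2944 (.leaf 0x88000242802a1b000000006c001008) (.sR 3072 (.leaf 0x94000102802b1c8000000094001008) (.leaf 0x9c000002802c1d800000007c001008))) (.sR 3328 (.leaf 0xa81801c2802d1f0000000070001008) (.sR 3456 (.leaf 0xb0000282802e200000000094001008) (.leaf 3))))))))) (.sR 3456 (.sg 28 (.sr 2432 (.sR 2944 (.sR 2688 (.leaf 0x3e074000042802f188dc01ff1803e1005) (.sR 2816 (.leaf 0x3b08000008280301a0f0088bf803b1005) (.leaf 0x880000c280311b000000006c001008))) (.sR 3200 (.sR 3072 (.leaf 0x9400014280321c8000000068001008) (.leaf 0x9c00000280331d800000005c001008)) (.sR 3328 (.leaf 0xa81801c280341f0000000050001008) (.leaf 0xb0000282803520000000005c001008)))) (.sR 2944 (.sR 2688 (.leaf 0x7400004280361880000000a0001008) (.sR 2816 (.leaf 0x4108000008280371a0f0005af80411005) (.leaf 0x880000c280381b000000006c001008))) (.sR 3200 (.sR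 3072 (.leaf 0x9400014280391c8000000060001008) (.leaf 0x9c000002803a1d800000005c001008)) (.sR 3328 (.leaf 0xa81801c2803b1f0000000050001008) (.leaf 3))))) (.sR 3328 (.sr 2432 (.sR 2944 (.sR 2688 (.leaf 0x6c000042803c1780000000a0001008) (.sR 2816 (.leaf 0x78000082803d1900000000a4001008) (.leaf 0x800000c2803e1a000000009c001008))) (.sR 3072 (.leaf 0x8c000142803f1b80000000a0001008) (.sR 3200 (.leaf 0x9800000280401d00000000a0001008) (.leaf 0xa400048280411e8000000080001008)))) (.sR 2944 (.sR 2688 (.sg 30 (.leaf 0x6c00004280021780000000a4001008) (.leaf 0x6800004280021700000000ac001008)) (.sR 2816 (.leaf 0x7c00008280421980000000a4001008) (.leaf 0x880000c280431b0000000094001008))) (.sR 3072 (.leaf 0x9000014280441c000000009c001008) (.sR 3200 (.leaf 0x9c00000280451d8000000074001008) (.leaf 3))))) (.leaf 3))) (.leaf 3)))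
theorem k19 : ChunkP 5 5 2048 2560 24 32 2560 3584 :=
  chkY_sound (Q := 40) (C := []) (Z := [z821, z822, z859, z790, z791, z792, z793, z794, z795, z796, z797, z798, z799, z800, z801, z802, z803, z804, z805, z806, z807, z808, z809, z810, z811, z812, z813, z814, z815, z816, z817, z818, z819, z820, z823, z824, z825, z826, z827, z828, z829, z830, z831, z832, z833, z834, z835, z836, z837, z838, z839, z840, z841, z842, z843, z844, z845, z846, z847, z848, z849, z850, z851, z852, z853, z854, z855, z856, z857, z858])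
    (T := [f_w768_800_0_50_0r, f_w640_672_0_50_10r, f_w672_704_0_50_10r, f_w704_736_0_50_10r, f_w736_768_0_40_10r, f_w736_768_0_50_0r, f_w768_800_0_40_0r, f_w800_832_0_50_0r, f_w640_672_0_40_10r, f_w704_736_0_40_10r, f_w832_864_0_50_0r, f_w672_704_0_40_10r, f_w832_864_0_45_25r, f_w800_832_0_40_0r, f_w864_896_0_45_20r, f_w864_896_0_50_0r, f_w800_816_0_50_20r, f_w800_832_0_40_25r, f_w800_832_0_50_20r, f_w816_832_0_50_20r, f_w832_864_0_40_0r, f_w864_880_0_40_20r, f_w864_896_0_50_10r, f_w880_896_0_40_10r]) (t := t19)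
    all_nil
    (all_cons z821P (all_cons z822P (all_cons z859P (all_cons z790P (all_cons z791P (all_cons z792P (all_cons z793P (all_cons z794P (all_cons z795P (all_cons z796P (all_cons z797P (all_cons z798P (all_cons z799P (all_cons z800P (all_cons z801P (all_cons z802P (all_cons z803P (all_cons z804P (all_cons z805P (all_cons z806P (all_cons z807P (all_cons z808P (all_cons z809P (all_cons z810P (all_cons z811P (all_cons z812P (all_cons z813P (all_cons z814P (all_cons z815P (all_cons z816P (all_cons z817P (all_cons z818P (all_cons z819P (all_cons z820P (all_cons z823P (all_cons z824P (all_cons z825P (all_cons z826P (all_cons z827P (all_cons z828P (all_cons z829P (all_cons z830P (all_cons z831P (all_cons z832P (all_cons z833P (all_cons z834P (all_cons z835P (all_cons z836P (all_cons z837P (all_cons z838P (all_cons z839P (all_cons z840P (all_cons z841P (all_cons z842P (all_cons z843P (all_cons z844P (all_cons z845P (all_cons z846P (all_cons z847P (all_cons z848P (all_cons z849P (all_cons z850P (all_cons z851P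 (all_cons z852P (all_cons z853P (all_cons z854P (all_cons z855P (all_cons z856P (all_cons z857P (all_cons z858P all_nil))))))))))))))))))))))))))))))))))))))))))))))))))))))))))))))))))))))
    (all_cons f_w768_800_0_50_0r_p (all_cons f_w640_672_0_50_10r_p (all_cons f_w672_704_0_50_10r_p (all_cons f_w704_736_0_50_10r_p (all_cons f_w736_768_0_40_10r_p (all_cons f_w736_768_0_50_0r_p (all_cons f_w768_800_0_40_0r_p (all_cons f_w800_832_0_50_0r_p (all_cons f_w640_672_0_40_10r_p (all_cons f_w704_736_0_40_10r_p (all_cons f_w832_864_0_50_0r_p (all_cons f_w672_704_0_40_10r_p (all_cons f_w832_864_0_45_25r_p (all_cons f_w800_832_0_40_0r_p (all_cons f_w864_896_0_45_20r_p (all_cons f_w864_896_0_50_0r_p (all_cons f_w800_816_0_50_20r_p (all_cons f_w800_832_0_40_25r_p (all_cons f_w800_832_0_50_20r_p (all_cons f_w816_832_0_50_20r_p (all_cons f_w832_864_0_40_0r_p (all_cons f_w864_880_0_40_20r_p (all_cons f_w864_896_0_50_10r_p (all_cons f_w880_896_0_40_10r_p all_nil))))))))))))))))))))))))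
    (by decide +kernel)
def t20 : Tree := (.sg 36 (.sr 2176 (.sR 2816 (.sR 2688 (.leaf 0x3f078000102800419108003e8803f1005) (.leaf 0x8000004280051a000000009c001008)) (.sR 2944 (.leaf 0x7c00008280061980000000a4001008) (.sg 34 (.sR 3200 (.sR 3072 (.leaf 0x8800000280071b00000000a0001008) (.leaf 0x9c0000c280081d800000006c001008)) (.sR 3328 (.leaf 0xa400020280091e8000000098001008) (.sR 3456 (.sR 3392 (.leaf 0xb0000142800a20000000009c001008) (.leaf 0xb8000182800b210000000044001008)) (.sR 3520 (.leaf 0xbc0002428000218000000054001008) (.leaf 0xc00002828000220000000068001008))))) (.sR 3072 (.leaf 0x94000002800c1c800000005c001008) (.sR 3200 (.leaf 0x9c0000c2800d1d8000000068001008) (.sR 3392 (.sR 3264 (.leaf 0xa0000342800e1e8000000098001008) (.sR 3328 (.leaf 0xa4000402800f1e8000000088001008) (.leaf 0xb00001428001200000000040001008))) (.sR 3456 (.leaf 0xb80001828001210000000044001008) (.sR 3520 (.leaf 0xbc0002428002218000000038001008) (.leaf 0xc00002828002220000000044001008))))))))) (.sR 2688 (.leaf 0x6c00010280101780000000a8001008)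 (.sR 3456 (.sg 34 (.sR 3072 (.sR 2816 (.leaf 0x7800004280111900000000a8001008) (.sR 2944 (.leaf 0x8800008280121b000000006c001008) (.leaf 0x9400000280131c800000006c001008))) (.sR 3200 (.leaf 0x9c18030280141d80000000a0001008) (.sR 3328 (.leaf 0x9c1803c280151d8000000098001008) (.leaf 0xa800044280161f000000009c001008)))) (.sR 3072 (.sR 2816 (.leaf 0x3908400004280171a9240767180391005) (.sR 2944 (.leaf 0x8800008280181b0000000068001008) (.leaf 0x9400000280191c8000000068001008))) (.sR 3200 (.leaf 0x980002c2801a1d0000000098001008) (.sR 3328 (.leaf 0xa4000202801b1e8000000068001008) (.leaf 3))))) (.leaf 3)))) (.sr 2176 (.sR 2816 (.sR 2688 (.leaf 0x3e084000102801c1a8f082d4d803e1005) (.leaf 0x38084000042801d1a9240985780381005)) (.sR 2944 (.leaf 0x88000082801e1b0000000070001008) (.sg 38 (.sR 3200 (.sR 3072 (.leaf 0x88000002801f1b00000000a0001008) (.leaf 0x9c0000c280201d8000000064001008)) (.sR 3328 (.leaf 0xa80001c280211f0000000064001008) (.sR 3456 (.sR 3392 (.leaf 0xb00001428023200000000090001008) (.leaf 0xb80001828024210000000044001008))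 (.leaf 0xb40004828022208000000088001008)))) (.sR 3200 (.sR 3072 (.leaf 0x9400000280251c8000000054001008) (.leaf 0x9c0000c280261d800000005c001008)) (.sR 3328 (.leaf 0xa80001c280271f0000000058001008) (.sR 3456 (.sR 3392 (.leaf 0xb0000142800320000000003c001008) (.leaf 0xb80001828003210000000040001008)) (.leaf 3))))))) (.sR 2688 (.leaf 0x6c00010280281780000000a4001008) (.sR 3328 (.sg 38 (.sR 2944 (.sR 2816 (.leaf 0x7800004280291900000000a8001008) (.leaf 0x88000082802a1b0000000064001008)) (.sR 3072 (.leaf 0x94000002802b1c8000000064001008) (.sR 3200 (.leaf 0x9c0000c2802c1d800000006c001008) (.leaf 0xa4000382802d1f0000000098001008)))) (.sR 2944 (.sR 2816 (.leaf 0x38084000042802e1a9240985780381005) (.leaf 0x88000082802f1b0000000060001008)) (.sR 3072 (.leaf 0x9400000280301c8000000060001008) (.sR 3200 (.leaf 0x9c0000c280311d8000000060001008) (.leaf 3))))) (.leaf 3)))))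
theorem k20 : ChunkP 5 5 2048 2304 32 40 2560 3584 :=
  chkY_sound (Q := 40) (C := []) (Z := [z868, z873, z874, z899, z860, z861, z862, z863, z864, z865, z866, z867, z869, z870, z871, z872, z875, z876, z877, z878, z879, z880, z881, z882, z883, z884, z885, z886, z887, z888, z889, z890, z891, z892, z893, z894, z895, z896, z897, z898, z900, z901, z902, z903, z904, z905, z906, z907, z908, z909])
    (T := [f_w736_768_0_40_10r, f_w672_704_0_40_10r, f_w704_736_0_40_10r, f_w768_800_0_40_0r, f_w640_672_0_40_10r, f_w832_848_0_40_10r, f_w848_864_0_40_10r, f_w800_832_0_40_0r, f_w800_832_0_45_25r, f_w864_880_0_40_20r, f_w880_896_0_40_10r, f_w768_800_0_40_30r, f_w768_800_0_50_20r, f_w800_816_0_45_25r, f_w800_832_0_40_25r, f_w800_832_0_50_0r, f_w816_832_0_50_20r, f_w832_864_0_50_0r, f_w864_896_0_40_25r]) (t := t20)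
    all_nil
    (all_cons z868P (all_cons z873P (all_cons z874P (all_cons z899P (all_cons z860P (all_cons z861P (all_cons z862P (all_cons z863P (all_cons z864P (all_cons z865P (all_cons z866P (all_cons z867P (all_cons z869P (all_cons z870P (all_cons z871P (all_cons z872P (all_cons z875P (all_cons z876P (all_cons z877P (all_cons z878P (all_cons z879P (all_cons z880P (all_cons z881P (all_cons z882P (all_cons z883P (all_cons z884P (all_cons z885P (all_cons z886P (all_cons z887P (all_cons z888P (all_cons z889P (all_cons z890P (all_cons z891P (all_cons z892P (all_cons z893P (all_cons z894P (all_cons z895P (all_cons z896P (all_cons z897P (all_cons z898P (all_cons z900P (all_cons z901P (all_cons z902P (all_cons z903P (all_cons z904P (all_cons z905P (all_cons z906P (all_cons z907P (all_cons z908P (all_cons z909P all_nil))))))))))))))))))))))))))))))))))))))))))))))))))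
    (all_cons f_w736_768_0_40_10r_p (all_cons f_w672_704_0_40_10r_p (all_cons f_w704_736_0_40_10r_p (all_cons f_w768_800_0_40_0r_p (all_cons f_w640_672_0_40_10r_p (all_cons f_w832_848_0_40_10r_p (all_cons f_w848_864_0_40_10r_p (all_cons f_w800_832_0_40_0r_p (all_cons f_w800_832_0_45_25r_p (all_cons f_w864_880_0_40_20r_p (all_cons f_w880_896_0_40_10r_p (all_cons f_w768_800_0_40_30r_p (all_cons f_w768_800_0_50_20r_p (all_cons f_w800_816_0_45_25r_p (all_cons f_w800_832_0_40_25r_p (all_cons f_w800_832_0_50_0r_p (all_cons f_w816_832_0_50_20r_p (all_cons f_w832_864_0_50_0r_p (all_cons f_w864_896_0_40_25r_p all_nil)))))))))))))))))))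
    (by decide +kernel)
def t21 : Tree := (.sR 3200 (.sg 36 (.sr 2432 (.sg 34 (.sR 2816 (.sR 2688 (.leaf 0x6c00000280001780000000a4001008) (.leaf 0x7400008280011880000000a0001008)) (.sR 2944 (.leaf 0x8000010280021a00000000a4001008) (.sR 3072 (.leaf 0x8800018280031b000000009c001008) (.leaf 0x9c00020280041d800000005c001008)))) (.sR 2816 (.sR 2688 (.leaf 0x400740000028005188dc0000280401005) (.leaf 0x4108000008280061a0f0005af80411005)) (.sR 2944 (.leaf 0x7c00010280071980000000a4001008) (.sR 3072 (.leaf 0x8800018280081b00000000a4001008) (.leaf 0x9c00020280091d800000006c001008))))) (.sR 3072 (.sg 34 (.sR 2816 (.sR 2688 (.leaf 0x68000042800a1700000000ac001008) (.leaf 0x740000c2800b1880000000a8001008)) (.sR 2944 (.leaf 0x80000142800c1a000000009c001008) (.leaf 0x8c0001c2800d1b8000000094001008))) (.sR 2816 (.sR 2688 (.leaf 0x42074000042800e188dc01ff180421005) (.leaf 0x400840000c2800f1a9240000280401005)) (.sR 2944 (.leaf 0x8800014280101b0000000068001008) (.leaf 0x940001c280111c8000000060001008)))) (.leaf 3))) (.sr 2432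 (.sg 38 (.sR 2816 (.sR 2688 (.leaf 0x3f0740000028012188dc0080a803f1005) (.leaf 0x3f08000008280131a0f0005af803f1005)) (.sR 2944 (.leaf 0x8800010280141b000000007c001008) (.sR 3072 (.leaf 0x940001c280151c8000000098001008) (.leaf 0x9c00020280161d800000009c001008)))) (.sR 2816 (.sR 2688 (.leaf 0x3f078000002801719108003e8803f1005) (.leaf 0x3f08400008280181a9240028c803f1005)) (.sR 2944 (.leaf 0x8800010280191b0000000074001008) (.sR 3072 (.leaf 0x94000182801a1c800000006c001008) (.leaf 3))))) (.sR 2944 (.sg 38 (.sR 2688 (.leaf 0x74000042801b1880000000a0001008) (.sR 2816 (.leaf 0x800000c2801c1a0000000090001008) (.leaf 0x88000142801d1b0000000078001008))) (.sR 2688 (.leaf 0x70000042801e1800000000a4001008) (.sR 2816 (.leaf 0x7c0000c2801f19800000009c001008) (.leaf 0x8800014280201b0000000084001008)))) (.leaf 3)))) (.leaf 3))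
theorem k21 : ChunkP 5 5 2304 2560 32 40 2560 3584 :=
  chkY_sound (Q := 40) (C := []) (Z := [z910, z911, z912, z913, z914, z915, z916, z917, z918, z919, z920, z921, z922, z923, z924, z925, z926, z927, z928, z929, z930, z931, z932, z933, z934, z935, z936, z937, z938, z939, z940, z941, z942])
    (T := [f_w640_672_0_40_10r, f_w640_672_0_50_10r, f_w672_704_0_40_10r, f_w672_704_0_50_10r, f_w704_736_0_40_10r, f_w704_736_0_50_10r, f_w736_768_0_40_10r, f_w736_768_0_50_0r, f_w768_800_0_50_0r]) (t := t21)
    all_nil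
    (all_cons z910P (all_cons z911P (all_cons z912P (all_cons z913P (all_cons z914P (all_cons z915P (all_cons z916P (all_cons z917P (all_cons z918P (all_cons z919P (all_cons z920P (all_cons z921P (all_cons z922P (all_cons z923P (all_cons z924P (all_cons z925P (all_cons z926P (all_cons z927P (all_cons z928P (all_cons z929P (all_cons z930P (all_cons z931P (all_cons z932P (all_cons z933P (all_cons z934P (all_cons z935P (all_cons z936P (all_cons z937P (all_cons z938P (all_cons z939P (all_cons z940P (all_cons z941P (all_cons z942P all_nil)))))))))))))))))))))))))))))))))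
    (all_cons f_w640_672_0_40_10r_p (all_cons f_w640_672_0_50_10r_p (all_cons f_w672_704_0_40_10r_p (all_cons f_w672_704_0_50_10r_p (all_cons f_w704_736_0_40_10r_p (all_cons f_w704_736_0_50_10r_p (all_cons f_w736_768_0_40_10r_p (all_cons f_w736_768_0_50_0r_p (all_cons f_w768_800_0_50_0r_p all_nil)))))))))
    (by decide +kernel)
def t22 : Tree := (.sR 3328 (.sr 2304 (.sg 44 (.sr 2176 (.sR 2816 (.sR 2688 (.leaf 0x3808400000280001a8f08a1fb80381005) (.leaf 0x3d08400010280011a924016af803d1005)) (.sR 2944 (.leaf 0x8800008280021b000000009c001008) (.sR 3072 (.leaf 0x940000c280031c8000000068001008) (.sg 42 (.sR 3200 (.leaf 0x9c0001c280041d800000005c001008) (.leaf 0xa800030280051f0000000050001008)) (.sR 3200 (.leaf 0x9c00018280061d8000000080001008) (.leaf 0xa80002c280071f000000007c001008)))))) (.sR 2816 (.sR 2688 (.leaf 0x4008000000280081a1241cea580401005) (.leaf 0x3b08400004280091a92403df6803b1005)) (.sR 3200 (.sg 42 (.sR 2944 (.leaf 0x80000142800a1a00000000a0001008) (.sR 3072 (.leaf 0x940000c2800b1c8000000054001008)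 (.leaf 0x9c0001c2800c1d800000005c001008))) (.sR 2944 (.leaf 0x88000082800d1b0000000060001008) (.sR 3072 (.leaf 0x940000c2800e1c8000000050001008) (.leaf 3)))) (.leaf 3)))) (.sR 3200 (.sr 2176 (.sR 2816 (.sR 2688 (.leaf 0x38084000002800f1a8f08a1fb80381005) (.leaf 0x3808400010280101a9240985780381005)) (.sR 2944 (.leaf 0x8800008280111b000000005c001008) (.sR 3072 (.leaf 0x9400024280121c8000000064001008) (.leaf 0x9c00018280131d8000000060001008)))) (.sR 2816 (.sR 2688 (.leaf 0x3a08400000280141a8f08767a803a1005) (.leaf 0x3f08400010280151a9240028c803f1005)) (.sR 2944 (.leaf 0x8800008280161b0000000090001008) (.sR 3072 (.leaf 0x9400028280171c8000000084001008) (.leaf 3))))) (.leaf 3))) (.sR 3072 (.sg 44 (.sr 2432 (.sg 42 (.sR 2816 (.sR 2688 (.leaf 0x3f07c00000280181994800221803f1005) (.leaf 0x3b08400004280191a92403df6803b1005)) (.sR 2944 (.leaf 0x88000142801a1b0000000068001008) (.leaf 0x940000c2801b1c800000005c001008))) (.sR 2816 (.sR 2688 (.leaf 0x3f080000002801c1a1241da85803f1005) (.leaf 0x38084000042801d1a9240985780381005))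 (.sR 2944 (.leaf 0x88000142801e1b000000005c001008) (.leaf 3)))) (.sR 2816 (.sg 42 (.sR 2688 (.leaf 0x74000002801f1880000000a4001008) (.leaf 0x8000004280201a0000000098001008)) (.sR 2688 (.leaf 0x430740000028021188dc0471980431005) (.leaf 0x4208400004280221a92400a2380421005))) (.leaf 3))) (.sR 2816 (.sr 2432 (.sR 2688 (.leaf 0x3e07c0000028023199480085f803e1005) (.leaf 0x7400020280241880000000a8001008)) (.sR 2688 (.sg 46 (.leaf 0x4107c0000028025199480022180411005) (.leaf 0x3c08000000280261a12425707803c1005)) (.leaf 3))) (.leaf 3))) (.leaf 3))) (.leaf 3))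
theorem k22 : ChunkP 5 5 2048 2560 40 48 2560 3584 :=
  chkY_sound (Q := 40) (C := []) (Z := [z943, z944, z945, z946, z947, z948, z949, z950, z951, z952, z953, z954, z955, z956, z957, z958, z959, z960, z961, z962, z963, z964, z965, z966, z967, z968, z969, z970, z971, z972, z973, z974, z975, z976, z977, z978, z979, z980, z981])
    (T := [f_w640_672_0_40_10r, f_w672_704_0_40_10r, f_w704_736_0_30_0r, f_w736_768_0_40_10r, f_w672_704_0_30_10r, f_w704_736_0_40_10r, f_w768_800_0_30_0r, f_w768_800_0_40_0r, f_w672_704_0_45_35r, f_w736_768_0_30_0r, f_w736_768_0_40_30r, f_w800_832_0_30_0r, f_w800_832_0_40_0r]) (t := t22)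
    all_nil
    (all_cons z943P (all_cons z944P (all_cons z945P (all_cons z946P (all_cons z947P (all_cons z948P (all_cons z949P (all_cons z950P (all_cons z951P (all_cons z952P (all_cons z953P (all_cons z954P (all_cons z955P (all_cons z956P (all_cons z957P (all_cons z958P (all_cons z959P (all_cons z960P (all_cons z961P (all_cons z962P (all_cons z963P (all_cons z964P (all_cons z965P (all_cons z966P (all_cons z967P (all_cons z968P (all_cons z969P (all_cons z970P (all_cons z971P (all_cons z972P (all_cons z973P (all_cons z974P (all_cons z975P (all_cons z976P (all_cons z977P (all_cons z978P (all_cons z979P (all_cons z980P (all_cons z981P all_nil)))))))))))))))))))))))))))))))))))))))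
    (all_cons f_w640_672_0_40_10r_p (all_cons f_w672_704_0_40_10r_p (all_cons f_w704_736_0_30_0r_p (all_cons f_w736_768_0_40_10r_p (all_cons f_w672_704_0_30_10r_p (all_cons f_w704_736_0_40_10r_p (all_cons f_w768_800_0_30_0r_p (all_cons f_w768_800_0_40_0r_p (all_cons f_w672_704_0_45_35r_p (all_cons f_w736_768_0_30_0r_p (all_cons f_w736_768_0_40_30r_p (all_cons f_w800_832_0_30_0r_p (all_cons f_w800_832_0_40_0r_p all_nil)))))))))))))
    (by decide +kernel)
def t23 : Tree := (.sR 3072 (.sg 56 (.sr 2304 (.sg 52 (.sR 2688 (.leaf 0x740000c280001880000000a0001008) (.sr 2176 (.sR 2816 (.leaf 0x3808000014280011a0f014b1380381005) (.sR 2944 (.leaf 0x8800018280021b0000000084001008) (.leaf 0x940001c280031c8000000050001008))) (.sR 2816 (.leaf 0x3808400004280041a9240985780381005) (.sR 2944 (.leaf 0x8800008280051b000000005c001008) (.leaf 3))))) (.sR 2816 (.sR 2688 (.leaf 0x7400000280061880000000a4001008) (.leaf 0x3808400004280071a9240985780381005)) (.sR 2944 (.leaf 0x8800008280081b000000005c001008) (.leaf 3)))) (.sR 2688 (.sg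 52 (.sr 2432 (.leaf 0x3808400010280091a8f08a1fb80381005) (.leaf 3)) (.leaf 3)) (.leaf 3))) (.sR 2688 (.sr 2304 (.leaf 0x3e078000002800a1910800e8b6a3e1005) (.leaf 3)) (.leaf 3))) (.leaf 3))
theorem k23 : ChunkP 5 5 2048 2560 48 64 2560 3584 :=
  chkY_sound (Q := 40) (C := []) (Z := [z982, z983, z984, z985, z986, z987, z988, z989, z990, z991, z992])
    (T := [f_w640_672_0_10_0r, f_w672_704_0_30_10r, f_w704_736_0_30_0r, f_w640_672_0_35_35r, f_w640_672_0_40_10r, f_w672_704_0_10_0r, f_w704_736_0_10_0r, f_w736_768_0_30_0r]) (t := t23)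
    all_nil
    (all_cons z982P (all_cons z983P (all_cons z984P (all_cons z985P (all_cons z986P (all_cons z987P (all_cons z988P (all_cons z989P (all_cons z990P (all_cons z991P (all_cons z992P all_nil)))))))))))
    (all_cons f_w640_672_0_10_0r_p (all_cons f_w672_704_0_30_10r_p (all_cons f_w704_736_0_30_0r_p (all_cons f_w640_672_0_35_35r_p (all_cons f_w640_672_0_40_10r_p (all_cons f_w672_704_0_10_0r_p (all_cons f_w704_736_0_10_0r_p (all_cons f_w736_768_0_30_0r_p all_nil))))))))
    (by decide +kernel)

end Pool.Agent.Lib.MP_af3a4a_an.P1.CHK.DATA.N5t
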