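import Pool.Agent.Lib.MP_af3a4a_an.P1.CHK.SWP.Pay
import Pool.Agent.Lib.MP_af3a4a_an.P1.CHK.DATA.N5t.C0
import Pool.Agent.Lib.MP_af3a4a_an.P1.CHK.DATA.N5t.Z3
import Pool.Agent.Lib.MP_af3a4a_an.P1.CHK.DATA.F5t.W624a
import Pool.Agent.Lib.MP_af3a4a_an.P1.CHK.DATA.F5t.W672a
import Pool.Agent.Lib.MP_af3a4a_an.P1.CHK.DATA.F5t.W720a
import Pool.Agent.Lib.MP_af3a4a_an.P1.CHK.DATA.F5t.W768a

/-! chunks for N = 5 (generated) -/

set_option autoImplicit false
set_option maxRecDepth 100000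

namespace Pool.Agent.Lib.MP_af3a4a_an.P1.CHK.DATA.N5t

open BOX SWP

def t24 : Tree := (.sg 96 (.sg 80 (.leaf 3) (.leaf 3)) (.leaf 3))
theorem k24 : ChunkP 5 5 2048 2560 64 101 2560 3584 :=
  chkY_sound (Q := 40) (C := []) (Z := [])
    (T := []) (t := t24)
    all_nil
    all_nil
    all_nil
    (by decide +kernel)
def t25 : Tree := (.sg 64 (.sg 32 (.sg 16 (.sR 3072 (.sR 2944 (.sg 8 (.sR 2688 (.leaf 0x7c0c00c1e0001700000000a4001007) (.sR 2816 (.leaf 0x90080101e000198000000090001007) (.leaf 0x9c080141e0001b000000005c001007))) (.sR 2816 (.sr 2816 (.sR 2688 (.leaf 0x6800000280001700000000a4001008) (.leaf 0x780000428001190000000098001008)) (.sR 2688 (.leaf 0x6800000280021700000000a4001008) (.leaf 0x7c00004280031980000000a0001008))) (.leaf 0x98040141c0051a000000009c001007))) (.leaf 0xac000181c0011c8000000064001007)) (.sR 3200 (.leaf 0xb80003c1a0011d800000005c001007) (.sR 3328 (.leaf 0xc0000401c0011f0000000098001007) (.leaf 3)))) (.sR 3200 (.sg 24 (.sr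 2816 (.sR 2944 (.sg 20 (.sR 2688 (.leaf 0x6800000280041700000000ac001008) (.sR 2816 (.leaf 0x7800004280051900000000a8001008) (.leaf 0x8800008280061b00000000a0001008))) (.sR 2688 (.sr 2688 (.leaf 0x3c0740000028009188dc07c95803c1005) (.leaf 0x3c074000002800a188dc07c95803c1005)) (.sR 2816 (.leaf 0x741c0102800718800000009c001008) (.leaf 0x881c014280081b0000000088001008)))) (.sR 3072 (.leaf 0xac000181c0031c8000000080001007) (.leaf 0xb4000381c0031d8000000098001007))) (.sR 2816 (.sR 2688 (.leaf 0x880800c1c00218000000009c001007) (.leaf 0x3a098040101c0021a0f00c1bc803a1000)) (.sR 2944 (.leaf 0xa4000141a0021b000000005c001007) (.leaf 3)))) (.sR 3072 (.sr 2816 (.sg 28 (.sR 2944 (.sr 2688 (.sR 2688 (.leaf 0x74000002800c1880000000a0001008) (.sR 2816 (.leaf 0x3d080000042800d1a0f003274803d1005) (.leaf 0x88000082800e1b0000000060001008))) (.sR 2688 (.leaf 0x70000002800f180000000098001008) (.sR 2816 (.leaf 0x3f08000004280101a0f0005af803f1005) (.leaf 0x8800008280111b000000005c001008))))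 (.leaf 0x94000342800b1c8000000090001008)) (.sr 2688 (.sR 2816 (.sR 2688 (.leaf 0x6800000280121700000000a8001008) (.leaf 0x7800004280131900000000a4001008)) (.sR 2944 (.leaf 0x8800008280141b0000000094001008) (.leaf 0x9400030280151c8000000084001008))) (.sR 2816 (.sR 2688 (.leaf 0x702000c280161800000000a8001008) (.leaf 0x7c00004280171980000000a4001008)) (.sR 2944 (.leaf 0x8800008280181b000000007c001008) (.leaf 3))))) (.sR 2816 (.sg 28 (.sR 2688 (.leaf 0x800800c1c0041700000000a4001007) (.leaf 0x98040101c0041a00000000a0001007)) (.sR 2688 (.sr 2944 (.leaf 0x6800000280191700000000a8001008) (.leaf 0x68000002801a1700000000a4001008)) (.leaf 0x9c000281a0061a00000000a4001007))) (.leaf 3))) (.leaf 3))) (.leaf 3))) (.sg 48 (.sR 2944 (.sg 40 (.sr 2816 (.sg 36 (.sr 2688 (.sR 2816 (.sg 34 (.sR 2688 (.leaf 0x74000002801c1880000000a0001008) (.leaf 0x3e080000042801d1a0f00169b803e1005)) (.sR 2688 (.leaf 0x70000002801e1800000000a8001008) (.leaf 0x3f084000042801f1a9240028c803f1005)))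 (.leaf 0x840002c2801b1a80000000a4001008)) (.sR 2688 (.sg 34 (.leaf 0x7400000280211880000000a4001008) (.leaf 0x7000000280221800000000a8001008)) (.sR 2816 (.leaf 0x740002428020188000000098001008) (.leaf 3)))) (.sR 2816 (.sr 2688 (.sg 38 (.sR 2688 (.leaf 0x7400000280231880000000a4001008) (.leaf 0x4008000004280241a0f00000280401005)) (.sR 2688 (.leaf 0x7000000280251800000000a4001008) (.leaf 0x8000004280261a000000009c001008))) (.sR 2688 (.sg 38 (.leaf 0x6800000280271700000000a4001008) (.leaf 0x700001c2802818000000009c001008)) (.leaf 3))) (.leaf 3))) (.sR 2688 (.sg 36 (.sr 2944 (.leaf 0x7000020280291800000000a0001008) (.leaf 3)) (.leaf 3)) (.leaf 3))) (.sR 2688 (.sr 2816 (.sg 44 (.sr 2688 (.sg 42 (.leaf 0x6c000002802a1780000000a8001008) (.leaf 0x68000002802b1700000000a4001008)) (.leaf 3)) (.leaf 3)) (.leaf 3)) (.leaf 3))) (.leaf 3)) (.leaf 3))) (.sg 96 (.sg 80 (.leaf 3) (.leaf 3)) (.leaf 3)))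
theorem k25 : ChunkP 5 5 2560 3072 0 101 2560 3584 :=
  chkY_sound (Q := 40) (C := [c2.c, c3.c, c5.c, c1.c, c6.c, c4.c, c7.c]) (Z := [z993, z994, z995, z996, z997, z998, z999, z1000, z1001, z1002, z1003, z1004, z1005, z1006, z1007, z1008, z1009, z1010, z1011, z1012, z1013, z1014, z1015, z1016, z1017, z1018, z1019, z1020, z1021, z1022, z1023, z1024, z1025, z1026, z1027, z1028, z1029, z1030, z1031, z1032, z1033, z1034, z1035, z1036])
    (T := [f_w640_672_0_50_10r, f_w672_704_0_50_10r, f_w704_736_0_50_10r, f_w640_672_0_60_0r, f_w672_704_0_60_0r, f_w704_736_0_60_0r, f_w736_768_0_60_0r, f_w640_672_0_50_35r, f_w640_672_0_60_30r, f_w672_704_0_55_30r, f_w672_704_0_60_25r, f_w704_736_0_50_30r, f_w736_768_0_50_0r, f_w736_768_0_55_25r, f_w768_800_0_50_20r, f_w768_800_0_60_0r, f_w800_832_0_50_0r]) (t := t25)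
    (all_cons p2 (all_cons p3 (all_cons p5 (all_cons p1 (all_cons p6 (all_cons p4 (all_cons p7 all_nil)))))))
    (all_cons z993P (all_cons z994P (all_cons z995P (all_cons z996P (all_cons z997P (all_cons z998P (all_cons z999P (all_cons z1000P (all_cons z1001P (all_cons z1002P (all_cons z1003P (all_cons z1004P (all_cons z1005P (all_cons z1006P (all_cons z1007P (all_cons z1008P (all_cons z1009P (all_cons z1010P (all_cons z1011P (all_cons z1012P (all_cons z1013P (all_cons z1014P (all_cons z1015P (all_cons z1016P (all_cons z1017P (all_cons z1018P (all_cons z1019P (all_cons z1020P (all_cons z1021P (all_cons z1022P (all_cons z1023P (all_cons z1024P (all_cons z1025P (all_cons z1026P (all_cons z1027P (all_cons z1028P (all_cons z1029P (all_cons z1030P (all_cons z1031P (all_cons z1032P (all_cons z1033P (all_cons z1034P (all_cons z1035P (all_cons z1036P all_nil))))))))))))))))))))))))))))))))))))))))))))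
    (all_cons f_w640_672_0_50_10r_p (all_cons f_w672_704_0_50_10r_p (all_cons f_w704_736_0_50_10r_p (all_cons f_w640_672_0_60_0r_p (all_cons f_w672_704_0_60_0r_p (all_cons f_w704_736_0_60_0r_p (all_cons f_w736_768_0_60_0r_p (all_cons f_w640_672_0_50_35r_p (all_cons f_w640_672_0_60_30r_p (all_cons f_w672_704_0_55_30r_p (all_cons f_w672_704_0_60_25r_p (all_cons f_w704_736_0_50_30r_p (all_cons f_w736_768_0_50_0r_p (all_cons f_w736_768_0_55_25r_p (all_cons f_w768_800_0_50_20r_p (all_cons f_w768_800_0_60_0r_p (all_cons f_w800_832_0_50_0r_p all_nil)))))))))))))))))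
    (by decide +kernel)
def t26 : Tree := (.sr 3584 (.sg 64 (.sg 32 (.sg 16 (.sR 2688 (.leaf 0x3e088040001a000178a40882f803e1000) (.sR 2816 (.leaf 0x38098000041a000198cc265ed80381000) (.leaf 3))) (.sR 2688 (.sg 24 (.leaf 0x8800000180011700000000a4001007) (.leaf 3)) (.leaf 3))) (.sg 48 (.leaf 3) (.leaf 3))) (.sg 96 (.sg 80 (.leaf 3) (.leaf 3)) (.leaf 3))) (.sg 64 (.sg 32 (.sg 16 (.leaf 3) (.leaf 3)) (.sg 48 (.leaf 3) (.leaf 3))) (.sg 96 (.sg 80 (.leaf 3) (.leaf 3)) (.leaf 3))))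
theorem k26 : ChunkP 5 5 3072 4096 0 101 2560 3584 :=
  chkY_sound (Q := 40) (C := [c8.c, c9.c]) (Z := [])
    (T := [f_w640_672_0_60_0r, f_w672_704_0_60_0r]) (t := t26)
    (all_cons p8 (all_cons p9 all_nil))
    all_nil
    (all_cons f_w640_672_0_60_0r_p (all_cons f_w672_704_0_60_0r_p all_nil))
    (by decide +kernel)

end Pool.Agent.Lib.MP_af3a4a_an.P1.CHK.DATA.N5t
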