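import Pool.Agent.Lib.MP_af3a4a_an.P1.CHK.DATA.N5t.K0
import Pool.Agent.Lib.MP_af3a4a_an.P1.CHK.DATA.N5t.K1
import Pool.Agent.Lib.MP_af3a4a_an.P1.CHK.DATA.N5t.K2
import Pool.Agent.Lib.MP_af3a4a_an.P1.CHK.DATA.N5t.K3
import Pool.Agent.Lib.MP_af3a4a_an.P1.CHK.DATA.N5t.K4

/-! glue for N = 5 (generated) -/

set_option autoImplicit false
set_option maxRecDepth 100000

namespace Pool.Agent.Lib.MP_af3a4a_an.P1.CHK.DATA.N5t

open BOX

theorem g0 : ChunkP 5 5 0 1024 0 101 2560 3584 := ChunkP.r k0 k1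
theorem g1 : ChunkP 5 5 1024 1536 0 32 2560 3584 := ChunkP.g k2 k3
theorem g2 : ChunkP 5 5 1024 1536 0 64 2560 3584 := ChunkP.g g1 k4
theorem g3 : ChunkP 5 5 1024 1536 0 101 2560 3584 := ChunkP.g g2 k5
theorem g4 : ChunkP 5 5 1536 2048 0 16 2560 3584 := ChunkP.r k6 k7
theorem g5 : ChunkP 5 5 1536 1792 16 32 2560 3584 := ChunkP.g k8 k9
theorem g6 : ChunkP 5 5 1792 2048 16 32 2560 3584 := ChunkP.g k10 k11
theorem g7 : ChunkP 5 5 1536 2048 16 32 2560 3584 := ChunkP.r g5 g6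
theorem g8 : ChunkP 5 5 1536 2048 0 32 2560 3584 := ChunkP.g g4 g7
theorem g9 : ChunkP 5 5 1792 2048 32 48 2560 3584 := ChunkP.g k13 k14
theorem g10 : ChunkP 5 5 1536 2048 32 48 2560 3584 := ChunkP.r k12 g9
theorem g11 : ChunkP 5 5 1536 2048 32 64 2560 3584 := ChunkP.g g10 k15
theorem g12 : ChunkP 5 5 1536 2048 0 64 2560 3584 := ChunkP.g g8 g11
theorem g13 : ChunkP 5 5 1536 2048 0 101 2560 3584 := ChunkP.g g12 k16
theorem g14 : ChunkP 5 5 1024 2048 0 101 2560 3584 := ChunkP.r g3 g13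
theorem g15 : ChunkP 5 5 0 2048 0 101 2560 3584 := ChunkP.r g0 g14
theorem g16 : ChunkP 5 5 2048 2560 16 32 2560 3584 := ChunkP.g k18 k19
theorem g17 : ChunkP 5 5 2048 2560 0 32 2560 3584 := ChunkP.g k17 g16
theorem g18 : ChunkP 5 5 2048 2560 32 40 2560 3584 := ChunkP.r k20 k21
theorem g19 : ChunkP 5 5 2048 2560 32 48 2560 3584 := ChunkP.g g18 k22
theorem g20 : ChunkP 5 5 2048 2560 32 64 2560 3584 := ChunkP.g g19 k23
theorem g21 : ChunkP 5 5 2048 2560 0 64 2560 3584 := ChunkP.g g17 g20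
theorem g22 : ChunkP 5 5 2048 2560 0 101 2560 3584 := ChunkP.g g21 k24
theorem g23 : ChunkP 5 5 2048 3072 0 101 2560 3584 := ChunkP.r g22 k25
theorem g24 : ChunkP 5 5 2048 4096 0 101 2560 3584 := ChunkP.r g23 k26
theorem g25 : ChunkP 5 5 0 4096 0 101 2560 3584 := ChunkP.r g15 g24

/-- the slab -/
theorem slab : ChunkP 5 5 0 4096 0 101 2560 3584 := g25

end Pool.Agent.Lib.MP_af3a4a_an.P1.CHK.DATA.N5t
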