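import Pool.Agent.Lib.MP_af3a4a_an.P1.CHK.DATA.N5t.Full
import Pool.Agent.Lib.MP_af3a4a_an.P1.Final
import Pool.Agent.Lib.MP_af3a4a_an.P1.H80.Contour

/-!
# `N = 5`, `R ≥ 5/2` (council 2, helper88)
-/

set_option autoImplicit false

namespace Pool.Agent.Lib.MP_af3a4a_an.P1.CHK.DATA.N5t

open Pool.Agent.Lib.MP_af3a4a_an.P1
open Pool.Agent.Lib.MP_af3a4a_an.P1.H80
open Pool.Agent.Lib.MP_af3a4a_an.P1.Final

theorem h5c (z w : Fin 5 → ℂ) (R : ℝ) (σ : Fin 5 → ℂ) (hC : Cfg2 5 z w R σ) (h : 5 / 2 ≤ R) :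
    False := by
  have h2 := large_R hC
  have h3 : ((5 : ℕ) : ℝ) = 5 := by norm_num
  rw [h3] at h2
  exact strip slab le_rfl le_rfl hC (by push_cast; linarith) (by push_cast; linarith)

end Pool.Agent.Lib.MP_af3a4a_an.P1.CHK.DATA.N5t
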