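import Pool.Agent.Lib.MP_af3a4a_an.P1.CHK.SWP.Pay
import Pool.Agent.Lib.MP_af3a4a_an.P1.CHK.DATA.N5t.Z0
import Pool.Agent.Lib.MP_af3a4a_an.P1.CHK.DATA.F5t.W624a
import Pool.Agent.Lib.MP_af3a4a_an.P1.CHK.DATA.F5t.W672a
import Pool.Agent.Lib.MP_af3a4a_an.P1.CHK.DATA.F5t.W720a
import Pool.Agent.Lib.MP_af3a4a_an.P1.CHK.DATA.F5t.W768a
import Pool.Agent.Lib.MP_af3a4a_an.P1.CHK.DATA.F5t.W816a
import Pool.Agent.Lib.MP_af3a4a_an.P1.CHK.DATA.F5t.W864a

/-! chunks for N = 5 (generated) -/

set_option autoImplicit false
set_option maxRecDepth 100000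

namespace Pool.Agent.Lib.MP_af3a4a_an.P1.CHK.DATA.N5t

open BOX SWP

def t0 : Tree := (.sg 64 (.sg 32 (.sg 16 (.sr 256 (.sR 3072 (.sR 2816 (.sR 2688 (.leaf 0x3808000000280001a8f08a1fb80381005) (.leaf 0x3808000004280011a0f014b1380381005)) (.sR 2944 (.leaf 0x8800008280021b000000005c001008) (.leaf 0x940000c280031c8000000050001008))) (.sR 3328 (.sR 3200 (.leaf 0x9c00010280041d800000005c001008) (.leaf 0xa800014280051f0000000050001008)) (.sR 3456 (.leaf 0xb0000182800620000000005c001008) (.leaf 0xbc0001c28007218000000050001008)))) (.sR 3072 (.sR 2816 (.sR 2688 (.leaf 0x3808000000280001a8f08a1fb80381005) (.leaf 0x3808000004280011a0f014b1380381005)) (.sR 2944 (.leaf 0x8800008280021b000000005c001008) (.leaf 0x940000c280031c8000000050001008))) (.sR 3328 (.sR 3200 (.leaf 0x9c00010280041d800000005c001008) (.leaf 0xa800014280051f0000000050001008)) (.sR 3456 (.leaf 0xb0000182800620000000005c001008) (.leaf 0xbc0001c28007218000000050001008))))) (.sR 3072 (.sR 2816 (.sR 2688 (.leaf 0x3808000000280081a8f08a1fb80381005) (.leaf 0x3808000004280091a0f014b1380381005))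 (.sR 2944 (.leaf 0x88000082800a1b000000005c001008) (.leaf 0x940000c2800b1c8000000050001008))) (.sR 3328 (.sR 3200 (.leaf 0x9c000102800c1d800000005c001008) (.leaf 0xa8000142800d1f0000000050001008)) (.sR 3456 (.leaf 0xb0000182800e20000000005c001008) (.leaf 0xbc0001c2800f218000000050001008))))) (.sg 48 (.sR 3072 (.sR 2816 (.sR 2688 (.leaf 0x3808000000280101a8f08a1fb80381005) (.leaf 0x3808000004280111a0f014b1380381005)) (.sR 2944 (.leaf 0x8800008280121b000000005c001008) (.leaf 0x940000c280131c8000000050001008))) (.sR 3328 (.sR 3200 (.leaf 0x9c00010280141d800000005c001008) (.leaf 0xa800014280151f0000000050001008)) (.sR 3456 (.leaf 0xb0000182801620000000005c001008) (.leaf 0xbc0001c28017218000000050001008)))) (.sR 3072 (.sR 2816 (.sR 2688 (.leaf 0x3808000000280181a8f08a1fb80381005) (.leaf 0x3808000004280191a0f014b1380381005)) (.sR 2944 (.leaf 0x88000082801a1b000000005c001008) (.leaf 0x940000c2801b1c8000000050001008))) (.sR 3328 (.sR 3200 (.leaf 0x9c000102801c1d800000005c001008) (.leaf 0xa8000142801d1f0000000050001008)) (.sR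 3456 (.leaf 0xb0000182801e20000000005c001008) (.leaf 0xbc0001c2801f218000000050001008)))))) (.sg 96 (.sg 80 (.sR 3072 (.sR 2816 (.sR 2688 (.leaf 0x3808000000280201a8f08a1fb80381005) (.leaf 0x3808000004280211a0f014b1380381005)) (.sR 2944 (.leaf 0x8800008280221b000000005c001008) (.leaf 0x940000c280231c8000000050001008))) (.sR 3328 (.sR 3200 (.leaf 0x9c00010280241d800000005c001008) (.leaf 0xa800014280251f0000000050001008)) (.sR 3456 (.leaf 0xb0000182802620000000005c001008) (.leaf 0xbc0001c28027218000000050001008)))) (.sR 3072 (.sR 2816 (.sR 2688 (.leaf 0x3808000000280281a8f08a1fb80381005) (.leaf 0x3808000004280291a0f014b1380381005)) (.sR 2944 (.leaf 0x88000082802a1b000000005c001008) (.leaf 0x940000c2802b1c8000000050001008))) (.sR 3328 (.sR 3200 (.leaf 0x9c000102802c1d800000005c001008) (.leaf 0xa8000142802d1f0000000050001008)) (.sR 3456 (.leaf 0xb0000182802e20000000005c001008) (.leaf 0xbc0001c2802f218000000050001008))))) (.sR 3072 (.sR 2816 (.sR 2688 (.leaf 0x3808000000280301a8f08a1fb80381005) (.leaf 0x3808000004280311a0f014b1380381005))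 (.sR 2944 (.leaf 0x8800008280321b000000005c001008) (.leaf 0x940000c280331c8000000050001008))) (.sR 3328 (.sR 3200 (.leaf 0x9c00010280341d800000005c001008) (.leaf 0xa800014280351f0000000050001008)) (.sR 3456 (.leaf 0xb0000182803620000000005c001008) (.leaf 0xbc0001c28037218000000050001008))))))
theorem k0 : ChunkP 5 5 0 512 0 101 2560 3584 :=
  chkY_sound (Q := 40) (C := []) (Z := [z0, z1, z2, z3, z4, z5, z6, z7, z8, z9, z10, z11, z12, z13, z14, z15, z16, z17, z18, z19, z20, z21, z22, z23, z24, z25, z26, z27, z28, z29, z30, z31, z32, z33, z34, z35, z36, z37, z38, z39, z40, z41, z42, z43, z44, z45, z46, z47, z48, z49, z50, z51, z52, z53, z54, z55])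
    (T := [f_w640_672_0_10_0r, f_w672_704_0_10_0r, f_w704_736_0_10_0r, f_w736_768_0_10_0r, f_w768_800_0_10_0r, f_w800_832_0_10_0r, f_w832_864_0_10_0r, f_w864_896_0_10_0r]) (t := t0)
    all_nil
    (all_cons z0P (all_cons z1P (all_cons z2P (all_cons z3P (all_cons z4P (all_cons z5P (all_cons z6P (all_cons z7P (all_cons z8P (all_cons z9P (all_cons z10P (all_cons z11P (all_cons z12P (all_cons z13P (all_cons z14P (all_cons z15P (all_cons z16P (all_cons z17P (all_cons z18P (all_cons z19P (all_cons z20P (all_cons z21P (all_cons z22P (all_cons z23P (all_cons z24P (all_cons z25P (all_cons z26P (all_cons z27P (all_cons z28P (all_cons z29P (all_cons z30P (all_cons z31P (all_cons z32P (all_cons z33P (all_cons z34P (all_cons z35P (all_cons z36P (all_cons z37P (all_cons z38P (all_cons z39P (all_cons z40P (all_cons z41P (all_cons z42P (all_cons z43P (all_cons z44P (all_cons z45P (all_cons z46P (all_cons z47P (all_cons z48P (all_cons z49P (all_cons z50P (all_cons z51P (all_cons z52P (all_cons z53P (all_cons z54P (all_cons z55P all_nil))))))))))))))))))))))))))))))))))))))))))))))))))))))))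
    (all_cons f_w640_672_0_10_0r_p (all_cons f_w672_704_0_10_0r_p (all_cons f_w704_736_0_10_0r_p (all_cons f_w736_768_0_10_0r_p (all_cons f_w768_800_0_10_0r_p (all_cons f_w800_832_0_10_0r_p (all_cons f_w832_864_0_10_0r_p (all_cons f_w864_896_0_10_0r_p all_nil))))))))
    (by decide +kernel)
def t1 : Tree := (.sg 64 (.sg 32 (.sg 16 (.sR 3072 (.sR 2816 (.sR 2688 (.leaf 0x3808000000280001a8f08a1fb80381005) (.leaf 0x3808000004280011a0f014b1380381005)) (.sR 2944 (.leaf 0x8800008280021b000000005c001008) (.leaf 0x940000c280031c8000000050001008))) (.sR 3328 (.sR 3200 (.leaf 0x9c00010280041d800000005c001008) (.leaf 0xa800014280051f0000000050001008)) (.sR 3456 (.leaf 0xb0000182800620000000005c001008) (.sr 768 (.leaf 0xbc0001c28007218000000050001008) (.leaf 0xbc0002028008218000000064001008))))) (.sR 3072 (.sR 2816 (.sR 2688 (.leaf 0x3808000000280091a8f08a1fb80381005) (.leaf 0x38080000042800a1a0f014b1380381005)) (.sR 2944 (.leaf 0x88000082800b1b000000005c001008) (.leaf 0x940000c2800c1c8000000050001008))) (.sR 3328 (.sR 3200 (.leaf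 0x9c000102800d1d800000005c001008) (.leaf 0xa8000142800e1f0000000050001008)) (.sR 3456 (.leaf 0xb0000182800f20000000005c001008) (.sr 768 (.leaf 0xbc0001c28010218000000050001008) (.leaf 0xbc0002028011218000000068001008)))))) (.sg 48 (.sR 3072 (.sR 2816 (.sR 2688 (.leaf 0x3808000000280121a8f08a1fb80381005) (.leaf 0x3808000004280131a0f014b1380381005)) (.sR 2944 (.leaf 0x8800008280141b000000005c001008) (.leaf 0x940000c280151c8000000050001008))) (.sR 3328 (.sR 3200 (.leaf 0x9c00010280161d800000005c001008) (.leaf 0xa800014280171f0000000050001008)) (.sR 3456 (.leaf 0xb0000182801820000000005c001008) (.leaf 0xbc0001c28019218000000050001008)))) (.sR 3072 (.sR 2816 (.sR 2688 (.leaf 0x38080000002801a1a8f08a1fb80381005) (.leaf 0x38080000042801b1a0f014b1380381005)) (.sR 2944 (.leaf 0x88000082801c1b000000005c001008) (.leaf 0x940000c2801d1c8000000050001008))) (.sR 3328 (.sR 3200 (.leaf 0x9c000102801e1d800000005c001008) (.leaf 0xa8000142801f1f0000000050001008)) (.sR 3456 (.leaf 0xb0000182802020000000005c001008) (.leaf 0xbc0001c28021218000000050001008))))))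 (.sg 96 (.sg 80 (.sR 3072 (.sR 2816 (.sR 2688 (.leaf 0x3808000000280221a8f08a1fb80381005) (.leaf 0x3808000004280231a0f014b1380381005)) (.sR 2944 (.leaf 0x8800008280241b000000005c001008) (.leaf 0x940000c280251c8000000050001008))) (.sR 3328 (.sR 3200 (.leaf 0x9c00010280261d800000005c001008) (.leaf 0xa800014280271f0000000050001008)) (.sR 3456 (.leaf 0xb0000182802820000000005c001008) (.leaf 0xbc0001c28029218000000050001008)))) (.sR 3072 (.sR 2816 (.sR 2688 (.leaf 0x38080000002802a1a8f08a1fb80381005) (.leaf 0x38080000042802b1a0f014b1380381005)) (.sR 2944 (.leaf 0x88000082802c1b000000005c001008) (.leaf 0x940000c2802d1c8000000050001008))) (.sR 3328 (.sR 3200 (.leaf 0x9c000102802e1d800000005c001008) (.leaf 0xa8000142802f1f0000000050001008)) (.sR 3456 (.leaf 0xb0000182803020000000005c001008) (.leaf 0xbc0001c28031218000000050001008))))) (.leaf 3)))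
theorem k1 : ChunkP 5 5 512 1024 0 101 2560 3584 :=
  chkY_sound (Q := 40) (C := []) (Z := [z56, z57, z58, z59, z60, z61, z62, z63, z64, z65, z66, z67, z68, z69, z70, z71, z72, z73, z74, z75, z76, z77, z78, z79, z80, z81, z82, z83, z84, z85, z86, z87, z88, z89, z90, z91, z92, z93, z94, z95, z96, z97, z98, z99, z100, z101, z102, z103, z104, z105])
    (T := [f_w640_672_0_10_0r, f_w672_704_0_10_0r, f_w704_736_0_10_0r, f_w736_768_0_10_0r, f_w768_800_0_10_0r, f_w800_832_0_10_0r, f_w832_864_0_10_0r, f_w864_896_0_10_0r, f_w864_896_0_20_0r]) (t := t1)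
    all_nil
    (all_cons z56P (all_cons z57P (all_cons z58P (all_cons z59P (all_cons z60P (all_cons z61P (all_cons z62P (all_cons z63P (all_cons z64P (all_cons z65P (all_cons z66P (all_cons z67P (all_cons z68P (all_cons z69P (all_cons z70P (all_cons z71P (all_cons z72P (all_cons z73P (all_cons z74P (all_cons z75P (all_cons z76P (all_cons z77P (all_cons z78P (all_cons z79P (all_cons z80P (all_cons z81P (all_cons z82P (all_cons z83P (all_cons z84P (all_cons z85P (all_cons z86P (all_cons z87P (all_cons z88P (all_cons z89P (all_cons z90P (all_cons z91P (all_cons z92P (all_cons z93P (all_cons z94P (all_cons z95P (all_cons z96P (all_cons z97P (all_cons z98P (all_cons z99P (all_cons z100P (all_cons z101P (all_cons z102P (all_cons z103P (all_cons z104P (all_cons z105P all_nil))))))))))))))))))))))))))))))))))))))))))))))))))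
    (all_cons f_w640_672_0_10_0r_p (all_cons f_w672_704_0_10_0r_p (all_cons f_w704_736_0_10_0r_p (all_cons f_w736_768_0_10_0r_p (all_cons f_w768_800_0_10_0r_p (all_cons f_w800_832_0_10_0r_p (all_cons f_w832_864_0_10_0r_p (all_cons f_w864_896_0_10_0r_p (all_cons f_w864_896_0_20_0r_p all_nil)))))))))
    (by decide +kernel)
def t2 : Tree := (.sR 2688 (.leaf 0x3c07800024280031910803d47803c1005) (.sr 1280 (.sR 3072 (.sR 2816 (.leaf 0x780001c280041900000000a4001008) (.sR 2944 (.leaf 0x8800028280051b000000005c001008) (.leaf 0x9400030280061c8000000050001008))) (.sR 3200 (.leaf 0x9c00038280071d8000000078001008) (.sR 3328 (.leaf 0xa80000c280081f0000000090001008) (.sg 8 (.sr 1152 (.sR 3456 (.leaf 0xb00002028009200000000078001008) (.leaf 0xbc000082800a218000000050001008)) (.sR 3456 (.leaf 0xb0000042800b20000000005c001008) (.sg 4 (.sr 1216 (.leaf 0xbc000082800c218000000050001008) (.leaf 0xbc000002800d218000000068001008)) (.leaf 0xbc000002800e218000000090001008)))) (.sr 1152 (.sR 3456 (.leaf 0xb0000202800f20000000009c001008) (.leaf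 0xbc0000828010218000000060001008)) (.sR 3456 (.leaf 0xb00000428011200000000098001008) (.sg 12 (.sr 1216 (.leaf 0xbc0000828012218000000050001008) (.leaf 0xb00000828013200000000098001008)) (.sr 1216 (.leaf 0xbc0000828014218000000050001008) (.leaf 0xbc0000828015218000000094001008))))))))) (.sR 2944 (.sR 2816 (.leaf 0x3f0800001c280161a0f0005af803f1005) (.leaf 0x880002c280171b0000000074001008)) (.sR 3072 (.leaf 0x8800034280181b00000000a4001008) (.sg 8 (.sR 3200 (.leaf 0x9800018280191d000000009c001008) (.sr 1408 (.sR 3328 (.leaf 0xa80000c2801a1f0000000050001008) (.sR 3456 (.leaf 0xb0000042801b20000000005c001008) (.sg 4 (.sr 1344 (.leaf 0xbc000002801c218000000050001008) (.leaf 0xbc000002801d218000000088001008)) (.sr 1344 (.leaf 0xbc000002801e218000000054001008) (.leaf 0xbc000002801f218000000064001008))))) (.sR 3328 (.leaf 0xa80000c280201f0000000098001008) (.sg 4 (.sr 1472 (.sR 3456 (.leaf 0xa800004280021f000000009c001008) (.leaf 0xbc0000028021218000000060001008)) (.sR 3456 (.leaf 0xb0000042800220000000005c001008) (.leaf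 0xbc000002802221800000006c001008))) (.sr 1472 (.sR 3456 (.leaf 0xb0000042802320000000005c001008) (.leaf 0xbc000002802421800000007c001008)) (.sR 3456 (.leaf 0xb0000042802520000000008c001008) (.leaf 0xb00000028026200000000098001008))))))) (.sr 1408 (.sR 3200 (.leaf 0x9c00018280271d800000005c001008) (.sR 3328 (.leaf 0xa80000c280281f0000000050001008) (.sg 12 (.sR 3456 (.leaf 0xac00004280291f8000000098001008) (.sr 1344 (.leaf 0xbc000002802a218000000060001008) (.leaf 0xbc000002802b21800000007c001008))) (.sR 3456 (.leaf 0xb0000042802c200000000064001008) (.sr 1344 (.leaf 0xbc000002802d21800000006c001008) (.leaf 0xb8000002802e210000000094001008)))))) (.sR 3200 (.leaf 0x9c000182802f1d8000000078001008) (.sR 3328 (.leaf 0xa80000c280301f0000000088001008) (.sg 12 (.sr 1472 (.sR 3456 (.leaf 0xb0000042803120000000005c001008) (.sR 3520 (.leaf 0xbc0001028000218000000064001008) (.leaf 0xc0000142803222000000003c001008))) (.sR 3456 (.leaf 0xac00004280331f800000009c001008) (.sR 3520 (.leaf 0xbc0001028000218000000040001008) (.leaf 0xc00001428000220000000068001008))))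 (.sr 1472 (.sR 3456 (.leaf 0xb0000042803420000000005c001008) (.sR 3520 (.leaf 0xbc0001028001218000000078001008) (.leaf 0xc00001428035220000000040001008))) (.sR 3456 (.leaf 0xb00000428036200000000068001008) (.sR 3520 (.leaf 0xbc0001028001218000000048001008) (.leaf 0xc00001428001220000000088001008)))))))))))))
theorem k2 : ChunkP 5 5 1024 1536 0 16 2560 3584 :=
  chkY_sound (Q := 40) (C := []) (Z := [z154, z158, z136, z106, z107, z108, z109, z110, z111, z112, z113, z114, z115, z116, z117, z118, z119, z120, z121, z122, z123, z124, z125, z126, z127, z128, z129, z130, z131, z132, z133, z134, z135, z137, z138, z139, z140, z141, z142, z143, z144, z145, z146, z147, z148, z149, z150, z151, z152, z153, z155, z156, z157, z159, z160])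
    (T := [f_w864_896_0_30_0r, f_w832_864_0_30_0r, f_w864_896_0_20_0r, f_w800_832_0_30_0r, f_w864_880_0_30_10r, f_w880_896_0_30_10r, f_w768_800_0_30_0r, f_w672_704_0_10_0r, f_w832_864_0_10_0r, f_w640_672_0_10_0r, f_w704_736_0_10_0r, f_w704_736_0_30_0r, f_w736_768_0_10_0r, f_w736_768_0_30_0r, f_w768_800_0_10_0r]) (t := t2)
    all_nil
    (all_cons z154P (all_cons z158P (all_cons z136P (all_cons z106P (all_cons z107P (all_cons z108P (all_cons z109P (all_cons z110P (all_cons z111P (all_cons z112P (all_cons z113P (all_cons z114P (all_cons z115P (all_cons z116P (all_cons z117P (all_cons z118P (all_cons z119P (all_cons z120P (all_cons z121P (all_cons z122P (all_cons z123P (all_cons z124P (all_cons z125P (all_cons z126P (all_cons z127P (all_cons z128P (all_cons z129P (all_cons z130P (all_cons z131P (all_cons z132P (all_cons z133P (all_cons z134P (all_cons z135P (all_cons z137P (all_cons z138P (all_cons z139P (all_cons z140P (all_cons z141P (all_cons z142P (all_cons z143P (all_cons z144P (all_cons z145P (all_cons z146P (all_cons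 z147P (all_cons z148P (all_cons z149P (all_cons z150P (all_cons z151P (all_cons z152P (all_cons z153P (all_cons z155P (all_cons z156P (all_cons z157P (all_cons z159P (all_cons z160P all_nil)))))))))))))))))))))))))))))))))))))))))))))))))))))))
    (all_cons f_w864_896_0_30_0r_p (all_cons f_w832_864_0_30_0r_p (all_cons f_w864_896_0_20_0r_p (all_cons f_w800_832_0_30_0r_p (all_cons f_w864_880_0_30_10r_p (all_cons f_w880_896_0_30_10r_p (all_cons f_w768_800_0_30_0r_p (all_cons f_w672_704_0_10_0r_p (all_cons f_w832_864_0_10_0r_p (all_cons f_w640_672_0_10_0r_p (all_cons f_w704_736_0_10_0r_p (all_cons f_w704_736_0_30_0r_p (all_cons f_w736_768_0_10_0r_p (all_cons f_w736_768_0_30_0r_p (all_cons f_w768_800_0_10_0r_p all_nil)))))))))))))))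
    (by decide +kernel)
def t3 : Tree := (.sr 1280 (.sR 2944 (.sR 2688 (.leaf 0x740001c2800518800000008c001008) (.sR 2816 (.leaf 0x380800002c280061a0f014b1380381005) (.leaf 0x8800034280071b000000005c001008))) (.sR 3072 (.leaf 0x9400038280081c8000000050001008) (.sR 3200 (.leaf 0x9c00018280091d800000006c001008) (.sg 24 (.sR 3328 (.leaf 0xa8000082800a1f0000000070001008) (.sr 1152 (.sR 3456 (.leaf 0xb0000282800b20000000005c001008) (.leaf 0xbc000042800c218000000058001008)) (.sR 3456 (.leaf 0xb0000002800d200000000064001008) (.sg 20 (.sr 1216 (.leaf 0xbc000042800e218000000050001008) (.leaf 0xbc000042800f218000000070001008)) (.sr 1216 (.leaf 0xbc0000428010218000000050001008) (.leaf 0xbc0000428011218000000098001008)))))) (.sR 3328 (.leaf 0xa800040280121f0000000090001008) (.sr 1152 (.sR 3456 (.leaf 0xb0000282801320000000005c001008) (.leaf 0xbc0000428014218000000050001008)) (.sR 3456 (.leaf 0xb0000002801520000000005c001008) (.sg 28 (.leaf 0xbc0000428016218000000098001008) (.leaf 0xbc0000428017218000000050001008))))))))) (.sR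 2688 (.leaf 0x3a0780001c28018191080868d803a1005) (.sR 2816 (.leaf 0x7800030280191900000000a8001008) (.sg 24 (.sR 2944 (.leaf 0x8800020280021b0000000084001008) (.sR 3072 (.leaf 0x94000242801a1c8000000068001008) (.sr 1408 (.sR 3200 (.leaf 0x9c000182801b1d800000005c001008) (.sR 3328 (.leaf 0xa8000082801c1f000000005c001008) (.sg 20 (.sR 3456 (.leaf 0xb0000002801d200000000068001008) (.sr 1344 (.leaf 0xbc000142801e218000000070001008) (.leaf 0xb0000142801f20000000009c001008))) (.sR 3456 (.leaf 0xb00000028020200000000064001008) (.sr 1344 (.leaf 0xbc0001428021218000000050001008) (.leaf 0xb40001428022208000000094001008)))))) (.sR 3200 (.leaf 0x9c00018280231d8000000060001008) (.sg 20 (.sR 3328 (.leaf 0x9c00008280241d80000000a0001008) (.sr 1472 (.sR 3456 (.leaf 0xb0000002802520000000005c001008) (.sR 3520 (.leaf 0xbc0000c2800021800000008c001008) (.leaf 0xc00001028026220000000044001008))) (.sR 3456 (.leaf 0xb00000028027200000000070001008) (.sR 3520 (.leaf 0xbc0000c2800021800000004c001008) (.leaf 0xb00001028000200000000098001008)))))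 (.sR 3328 (.leaf 0xa800008280281f0000000058001008) (.sr 1472 (.sR 3456 (.leaf 0xb0000002802920000000005c001008) (.sR 3520 (.leaf 0xbc0000c2800321800000008c001008) (.leaf 0xc0000102802a220000000044001008))) (.sR 3456 (.leaf 0xb0000002802b20000000006c001008) (.sR 3520 (.leaf 0xbc0000c2800321800000004c001008) (.leaf 0xc0000102802c220000000050001008)))))))))) (.sR 2944 (.leaf 0x8400020280021a80000000a4001008) (.sR 3072 (.leaf 0x94000242802d1c8000000064001008) (.sr 1408 (.sR 3200 (.leaf 0x9c0003c2802e1d8000000080001008) (.sR 3328 (.leaf 0xa8000082802f1f000000005c001008) (.sg 28 (.sR 3456 (.leaf 0xb0000002803020000000005c001008) (.sr 1344 (.leaf 0xbc0000428031218000000078001008) (.leaf 0xbc0001428032218000000084001008))) (.sR 3456 (.leaf 0xb0000002803320000000005c001008) (.sr 1344 (.leaf 0xbc0000428034218000000050001008) (.leaf 0xbc0000428035218000000090001008)))))) (.sR 3200 (.leaf 0x9c00018280361d8000000060001008) (.sg 28 (.sR 3328 (.leaf 0x9c00008280371d80000000a0001008) (.sr 1472 (.sR 3456 (.leaf 0xb0000002803820000000005c001008)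 (.sR 3520 (.leaf 0xbc0000c28001218000000078001008) (.leaf 0xc00001028039220000000040001008))) (.sR 3456 (.leaf 0xb0000002803a200000000064001008) (.sR 3520 (.leaf 0xbc0000c28001218000000048001008) (.leaf 0xbc0001028001218000000094001008))))) (.sR 3328 (.leaf 0xa8000082803b1f0000000050001008) (.sR 3456 (.leaf 0xb0000002803c200000000090001008) (.sr 1472 (.leaf 0xbc000142803d218000000090001008) (.sR 3520 (.leaf 0xbc0000c28004218000000040001008) (.leaf 0xc0000102800422000000006c001008))))))))))))))
theorem k3 : ChunkP 5 5 1024 1536 16 32 2560 3584 :=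
  chkY_sound (Q := 40) (C := []) (Z := [z195, z216, z182, z200, z222, z161, z162, z163, z164, z165, z166, z167, z168, z169, z170, z171, z172, z173, z174, z175, z176, z177, z178, z179, z180, z181, z183, z184, z185, z186, z187, z188, z189, z190, z191, z192, z193, z194, z196, z197, z198, z199, z201, z202, z203, z204, z205, z206, z207, z208, z209, z210, z211, z212, z213, z214, z215, z217, z218, z219, z220, z221])
    (T := [f_w832_864_0_30_0r, f_w864_896_0_20_0r, f_w800_832_0_30_0r, f_w864_880_0_30_10r, f_w880_896_0_30_10r, f_w864_896_0_30_0r, f_w768_800_0_30_0r, f_w640_672_0_10_0r, f_w704_736_0_30_0r, f_w736_768_0_30_0r, f_w832_864_0_10_0r, f_w672_704_0_10_0r, f_w672_704_0_30_10r, f_w704_736_0_10_0r, f_w736_768_0_10_0r, f_w768_800_0_10_0r, f_w800_832_0_10_0r]) (t := t3)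
    all_nil
    (all_cons z195P (all_cons z216P (all_cons z182P (all_cons z200P (all_cons z222P (all_cons z161P (all_cons z162P (all_cons z163P (all_cons z164P (all_cons z165P (all_cons z166P (all_cons z167P (all_cons z168P (all_cons z169P (all_cons z170P (all_cons z171P (all_cons z172P (all_cons z173P (all_cons z174P (all_cons z175P (all_cons z176P (all_cons z177P (all_cons z178P (all_cons z179P (all_cons z180P (all_cons z181P (all_cons z183P (all_cons z184P (all_cons z185P (all_cons z186P (all_cons z187P (all_cons z188P (all_cons z189P (all_cons z190P (all_cons z191P (all_cons z192P (all_cons z193P (all_cons z194P (all_cons z196P (all_cons z197P (all_cons z198P (all_cons z199P (all_cons z201P (all_cons z202P (all_cons z203P (all_cons z204P (all_cons z205P (all_cons z206P (all_cons z207P (all_cons z208P (all_cons z209P (all_cons z210P (all_cons z211P (all_cons z212P (all_cons z213P (all_cons z214P (all_cons z215P (all_cons z217P (all_cons z218P (all_cons z219P (all_cons z220P (all_cons z221P all_nil))))))))))))))))))))))))))))))))))))))))))))))))))))))))))))))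
    (all_cons f_w832_864_0_30_0r_p (all_cons f_w864_896_0_20_0r_p (all_cons f_w800_832_0_30_0r_p (all_cons f_w864_880_0_30_10r_p (all_cons f_w880_896_0_30_10r_p (all_cons f_w864_896_0_30_0r_p (all_cons f_w768_800_0_30_0r_p (all_cons f_w640_672_0_10_0r_p (all_cons f_w704_736_0_30_0r_p (all_cons f_w736_768_0_30_0r_p (all_cons f_w832_864_0_10_0r_p (all_cons f_w672_704_0_10_0r_p (all_cons f_w672_704_0_30_10r_p (all_cons f_w704_736_0_10_0r_p (all_cons f_w736_768_0_10_0r_p (all_cons f_w768_800_0_10_0r_p (all_cons f_w800_832_0_10_0r_p all_nil)))))))))))))))))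
    (by decide +kernel)
def t4 : Tree := (.sg 48 (.sR 2688 (.leaf 0x3a07c00024280001a1242bc15803a1005) (.sR 2816 (.leaf 0x7800028280011900000000a0001008) (.sr 1280 (.sR 3072 (.sR 2944 (.leaf 0x880001c280021b000000005c001008) (.leaf 0x9400020280031c8000000050001008)) (.sR 3200 (.leaf 0x9c00004280041d800000005c001008) (.sR 3328 (.leaf 0xa800008280051f0000000074001008) (.sg 40 (.sR 3456 (.leaf 0xa80000c280061f000000009c001008) (.sr 1152 (.leaf 0xbc0001428007218000000050001008) (.leaf 0xbc000002800821800000005c001008))) (.sR 3456 (.leaf 0xb00000c2800920000000005c001008) (.leaf 0xbc000002800a218000000054001008)))))) (.sR 2944 (.leaf 0x880001c2800b1b0000000098001008) (.sg 40 (.sR 3072 (.leaf 0x940002c2800c1c8000000050001008) (.sr 1408 (.sR 3328 (.sR 3200 (.leaf 0x9c000042800d1d800000005c001008) (.leaf 0xa8000082800e1f000000007c001008)) (.sR 3456 (.leaf 0xa8000102800f1f000000009c001008) (.sg 36 (.leaf 0xbc0001828010218000000074001008) (.leaf 0xbc0000028011218000000050001008)))) (.sR 3200 (.leaf 0x9c00030280121d800000005c001008)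 (.sR 3328 (.leaf 0x9c00038280131d8000000098001008) (.sg 36 (.sR 3456 (.leaf 0xb0000102801420000000005c001008) (.sr 1472 (.leaf 0xbc000182801521800000005c001008) (.leaf 0xbc0001828016218000000078001008))) (.sR 3456 (.leaf 0xb0000102801720000000005c001008) (.sr 1472 (.leaf 0xbc0000028018218000000050001008) (.leaf 0xbc0001828019218000000050001008)))))))) (.sR 3200 (.sR 3072 (.leaf 0x94000202801a1c8000000050001008) (.leaf 0x9c000042801b1d8000000078001008)) (.sR 3328 (.leaf 0xa8000342801c1f0000000064001008) (.sr 1408 (.sR 3456 (.leaf 0xb00000c2801d200000000078001008) (.leaf 0xbc000002801e218000000050001008)) (.sR 3456 (.leaf 0xb0000102801f200000000070001008) (.sg 44 (.leaf 0xbc0000028020218000000050001008) (.leaf 0xb0000142802120000000009c001008))))))))))) (.sR 2944 (.sR 2688 (.leaf 0x3808000024280221a8f08a1fb80381005) (.sR 2816 (.leaf 0x3808000028280231a0f014b1380381005) (.leaf 0x880001c280241b000000005c001008))) (.sR 3072 (.leaf 0x9400020280251c8000000050001008) (.sR 3200 (.leaf 0x9c00004280261d8000000070001008) (.sr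 1280 (.sR 3328 (.leaf 0xa800008280271f0000000050001008) (.sR 3456 (.leaf 0xb00000c2802820000000005c001008) (.leaf 0xbc0001428029218000000050001008))) (.sR 3328 (.leaf 0xa8000082802a1f0000000054001008) (.sR 3456 (.leaf 0xb00003c2802b200000000074001008) (.sg 56 (.leaf 0xbc000002802c218000000094001008) (.leaf 0xbc000142802d218000000050001008)))))))))
theorem k4 : ChunkP 5 5 1024 1536 32 64 2560 3584 :=
  chkY_sound (Q := 40) (C := []) (Z := [z223, z224, z225, z226, z227, z228, z229, z230, z231, z232, z233, z234, z235, z236, z237, z238, z239, z240, z241, z242, z243, z244, z245, z246, z247, z248, z249, z250, z251, z252, z253, z254, z255, z256, z257, z258, z259, z260, z261, z262, z263, z264, z265, z266, z267, z268])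
    (T := [f_w864_896_0_20_0r, f_w768_800_0_10_0r, f_w800_832_0_10_0r, f_w832_864_0_10_0r, f_w832_864_0_30_0r, f_w864_896_0_10_0r, f_w864_896_0_30_0r, f_w704_736_0_10_0r, f_w736_768_0_10_0r, f_w640_672_0_10_0r, f_w672_704_0_10_0r, f_w736_768_0_30_0r, f_w768_800_0_30_0r, f_w800_832_0_20_10r, f_w800_832_0_30_0r, f_w832_864_0_20_0r]) (t := t4)
    all_nil
    (all_cons z223P (all_cons z224P (all_cons z225P (all_cons z226P (all_cons z227P (all_cons z228P (all_cons z229P (all_cons z230P (all_cons z231P (all_cons z232P (all_cons z233P (all_cons z234P (all_cons z235P (all_cons z236P (all_cons z237P (all_cons z238P (all_cons z239P (all_cons z240P (all_cons z241P (all_cons z242P (all_cons z243P (all_cons z244P (all_cons z245P (all_cons z246P (all_cons z247P (all_cons z248P (all_cons z249P (all_cons z250P (all_cons z251P (all_cons z252P (all_cons z253P (all_cons z254P (all_cons z255P (all_cons z256P (all_cons z257P (all_cons z258P (all_cons z259P (all_cons z260P (all_cons z261P (all_cons z262P (all_cons z263P (all_cons z264P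 (all_cons z265P (all_cons z266P (all_cons z267P (all_cons z268P all_nil))))))))))))))))))))))))))))))))))))))))))))))
    (all_cons f_w864_896_0_20_0r_p (all_cons f_w768_800_0_10_0r_p (all_cons f_w800_832_0_10_0r_p (all_cons f_w832_864_0_10_0r_p (all_cons f_w832_864_0_30_0r_p (all_cons f_w864_896_0_10_0r_p (all_cons f_w864_896_0_30_0r_p (all_cons f_w704_736_0_10_0r_p (all_cons f_w736_768_0_10_0r_p (all_cons f_w640_672_0_10_0r_p (all_cons f_w672_704_0_10_0r_p (all_cons f_w736_768_0_30_0r_p (all_cons f_w768_800_0_30_0r_p (all_cons f_w800_832_0_20_10r_p (all_cons f_w800_832_0_30_0r_p (all_cons f_w832_864_0_20_0r_p all_nil))))))))))))))))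
    (by decide +kernel)
def t5 : Tree := (.sg 96 (.sg 80 (.sR 3072 (.sR 2816 (.sR 2688 (.leaf 0x3808000000280001a8f08a1fb80381005) (.leaf 0x3808000004280011a0f014b1380381005)) (.sR 2944 (.leaf 0x8800008280021b000000005c001008) (.leaf 0x940000c280031c8000000050001008))) (.sR 3328 (.sR 3200 (.leaf 0x9c00010280041d800000005c001008) (.leaf 0xa800014280051f0000000050001008)) (.sR 3456 (.leaf 0xb0000182800620000000005c001008) (.leaf 0xbc0001c28007218000000050001008)))) (.sR 2688 (.leaf 0x3808000000280081a8f08a1fb80381005) (.leaf 3))) (.leaf 3))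
theorem k5 : ChunkP 5 5 1024 1536 64 101 2560 3584 :=
  chkY_sound (Q := 40) (C := []) (Z := [z269, z270, z271, z272, z273, z274, z275, z276, z277])
    (T := [f_w640_672_0_10_0r, f_w672_704_0_10_0r, f_w704_736_0_10_0r, f_w736_768_0_10_0r, f_w768_800_0_10_0r, f_w800_832_0_10_0r, f_w832_864_0_10_0r, f_w864_896_0_10_0r]) (t := t5)
    all_nil
    (all_cons z269P (all_cons z270P (all_cons z271P (all_cons z272P (all_cons z273P (all_cons z274P (all_cons z275P (all_cons z276P (all_cons z277P all_nil)))))))))
    (all_cons f_w640_672_0_10_0r_p (all_cons f_w672_704_0_10_0r_p (all_cons f_w704_736_0_10_0r_p (all_cons f_w736_768_0_10_0r_p (all_cons f_w768_800_0_10_0r_p (all_cons f_w800_832_0_10_0r_p (all_cons f_w832_864_0_10_0r_p (all_cons f_w864_896_0_10_0r_p all_nil))))))))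
    (by decide +kernel)

end Pool.Agent.Lib.MP_af3a4a_an.P1.CHK.DATA.N5t
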